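import Pool.Agent.Helper376.LC.Cox

set_option autoImplicit false

/-! Parabolic subgroups of Coxeter groups: lengths in cosets. -/

namespace Cox957

open Pool.Agent.Helper376.LC

variable {B : Type} {M : CoxeterMatrix B} {W : Type} [Group W] (cs : CoxeterSystem M W)

/-- exchange condition -/
theorem exch (ω : List B) (i : B)
    (h : cs.length (cs.wordProd ω * cs.simple i) < cs.length (cs.wordProd ω)) :
    ∃ j < ω.length, cs.wordProd ω * cs.simple i = cs.wordProd (ω.eraseIdx j) := by
  classical
  have h1 : cs.IsRightInversion (cs.wordProd ω) (cs.simple i) :=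
    ⟨cs.isReflection_simple i, h⟩
  rw [rightInv_iff_eta, eta_wordProd] at h1
  have h2 : cs.simple i ∈ cs.rightInvSeq ω := by
    by_contra hn
    rw [List.count_eq_zero_of_not_mem hn] at h1
    simp at h1
  obtain ⟨j, hj, hj2⟩ := List.getElem_of_mem h2
  refine ⟨j, by rwa [cs.length_rightInvSeq] at hj, ?_⟩
  rw [← cs.wordProd_mul_getD_rightInvSeq, List.getD_eq_getElem _ _ hj, hj2]

/-- Elements of parabolic subgroups have reduced words in the given letters. -/
theorem red_word (J : Set B) (u : W) (hu : u ∈ Subgroup.closure (cs.simple '' J)) :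
    ∃ ω : List B, (∀ i ∈ ω, i ∈ J) ∧ cs.IsReduced ω ∧ cs.wordProd ω = u := by
  induction hu using Subgroup.closure_induction_right with
  | one => exact ⟨[], by simp, by simp [CoxeterSystem.IsReduced], by simp⟩
  | mul_right x hx y hy ih =>
    obtain ⟨i, hi, rfl⟩ := hy
    obtain ⟨ω, h1, h2, rfl⟩ := ih
    rcases cs.length_mul_simple (cs.wordProd ω) i with h3 | h3
    · refine ⟨ω ++ [i], ?_, ?_, ?_⟩
      · intro k hk
        rw [List.mem_append, List.mem_singleton] at hk
        rcases hk with hk | rfl
        · exact h1 k hk
        · exact hi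
      · unfold CoxeterSystem.IsReduced
        rw [cs.wordProd_append, cs.wordProd_singleton, h3, h2.eq]
        simp
      · rw [cs.wordProd_append, cs.wordProd_singleton]
    · obtain ⟨j, hj, h4⟩ := exch cs ω i (by omega)
      refine ⟨ω.eraseIdx j, ?_, ?_, h4.symm⟩
      · intro k hk
        exact h1 k (List.mem_of_mem_eraseIdx hk)
      · unfold CoxeterSystem.IsReduced
        rw [← h4]
        have := h2.eq
        rw [List.length_eraseIdx_of_lt hj]
        omega
  | mul_inv_cancel x hx y hy ih =>
    obtain ⟨i, hi, rfl⟩ := hy
    obtain ⟨ω, h1, h2, rfl⟩ := ih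
    rw [cs.inv_simple]
    rcases cs.length_mul_simple (cs.wordProd ω) i with h3 | h3
    · refine ⟨ω ++ [i], ?_, ?_, ?_⟩
      · intro k hk
        rw [List.mem_append, List.mem_singleton] at hk
        rcases hk with hk | rfl
        · exact h1 k hk
        · exact hi
      · unfold CoxeterSystem.IsReduced
        rw [cs.wordProd_append, cs.wordProd_singleton, h3, h2.eq]
        simp
      · rw [cs.wordProd_append, cs.wordProd_singleton]
    · obtain ⟨j, hj, h4⟩ := exch cs ω i (by omega)
      refine ⟨ω.eraseIdx j, ?_, ?_, h4.symm⟩
      · intro k hk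
        exact h1 k (List.mem_of_mem_eraseIdx hk)
      · unfold CoxeterSystem.IsReduced
        rw [← h4]
        have := h2.eq
        rw [List.length_eraseIdx_of_lt hj]
        omega

/-- going down from `x` with letters in the descent set -/
theorem down_word (x : W) (ω : List B) (h1 : ∀ i ∈ ω, cs.IsRightDescent x i)
    (h2 : cs.IsReduced ω) :
    ∃ τ : List B, x = cs.wordProd (τ ++ ω.reverse) ∧ τ.length + ω.length = cs.length x := by
  induction ω with
  | nil =>
    obtain ⟨τ, hτ, rfl⟩ := cs.exists_isReduced x
    exact ⟨τ, by simp, by simp [hτ.eq]⟩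
  | cons i ω ih =>
    have h2' : cs.IsReduced ω := by
      have := h2.drop 1
      simpa using this
    obtain ⟨τ, h3, h4⟩ := ih (fun k hk => h1 k (List.mem_cons_of_mem _ hk)) h2'
    have h5 : cs.length (x * cs.simple i) < cs.length x := h1 i List.mem_cons_self
    have h6 := h5
    rw [h3] at h6
    obtain ⟨j, hj, h7⟩ := exch cs _ i h6
    by_cases hjt : j < τ.length
    · refine ⟨τ.eraseIdx j, ?_, ?_⟩
      · rw [List.reverse_cons, ← List.append_assoc, cs.wordProd_append, cs.wordProd_singleton]
        rw [List.eraseIdx_append_of_lt_length hjt] at h7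
        rw [← h7, ← h3]
        simp
      · rw [List.length_eraseIdx_of_lt hjt, List.length_cons]
        omega
    · exfalso
      push Not at hjt
      rw [List.eraseIdx_append_of_length_le hjt, cs.wordProd_append, cs.wordProd_append,
        mul_assoc] at h7
      have h8 := mul_left_cancel h7
      have h9 : cs.wordProd (i :: ω) = (cs.wordProd (ω.reverse.eraseIdx (j - τ.length)))⁻¹ := by
        rw [← h8, mul_inv_rev, cs.wordProd_reverse, inv_inv, cs.inv_simple, cs.wordProd_cons]
      have h10 := h2.eq
      rw [h9, cs.length_inv] at h10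
      have h11 := cs.length_wordProd_le (ω.reverse.eraseIdx (j - τ.length))
      have h12 := List.length_eraseIdx_le ω.reverse (j - τ.length)
      rw [List.length_reverse] at h12
      rw [List.length_cons] at h10
      omega

theorem down_len (x u : W)
    (hu : u ∈ Subgroup.closure (cs.simple '' {i | cs.IsRightDescent x i})) :
    cs.length (x * u) + cs.length u = cs.length x := by
  obtain ⟨ω, h1, h2, rfl⟩ := red_word cs _ u hu
  obtain ⟨τ, h3, h4⟩ := down_word cs x ω h1 h2
  have h5 : x * cs.wordProd ω = cs.wordProd τ := by
    rw [h3, cs.wordProd_append, cs.wordProd_reverse, inv_mul_cancel_right]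
  have h6 := cs.length_wordProd_le τ
  have h7 := cs.length_le_length_mul_add_right x (cs.wordProd ω)
  rw [h5] at h7 ⊢
  rw [h2.eq] at h7 ⊢
  omega

theorem fin_len [Finite B] (n : ℕ) : {w : W | cs.length w ≤ n}.Finite := by
  have h1 : {ω : List B | ω.length ≤ n}.Finite := List.finite_length_le B n
  apply (h1.image cs.wordProd).subset
  intro w hw
  obtain ⟨ω, h2, rfl⟩ := cs.exists_isReduced w
  refine ⟨ω, ?_, rfl⟩
  have := h2.eq
  have hw' : cs.length (cs.wordProd ω) ≤ n := hw
  show ω.length ≤ n
  omega

/-- going up from an element of minimal length in its coset -/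
theorem up_word (J : Set B) (x : W)
    (hx : ∀ v ∈ Subgroup.closure (cs.simple '' J), cs.length x ≤ cs.length (x * v))
    (ω : List B) (h1 : ∀ i ∈ ω, i ∈ J) (h2 : cs.IsReduced ω) :
    cs.length (x * cs.wordProd ω) = cs.length x + ω.length := by
  obtain ⟨τ, hτ, rfl⟩ := cs.exists_isReduced x
  induction ω using List.reverseRecOn with
  | nil => simp
  | append_singleton ω i ih =>
    have h2' : cs.IsReduced ω := by
      have := h2.take ω.length
      simpa using this
    have h3 := ih (fun k hk => h1 k (List.mem_append_left _ hk)) h2'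
    have hmem : ∀ ω : List B, (∀ k ∈ ω, k ∈ J) →
        cs.wordProd ω ∈ Subgroup.closure (cs.simple '' J) := by
      intro ω hω
      induction ω with
      | nil => simp [Subgroup.one_mem]
      | cons k ω ih2 =>
        rw [cs.wordProd_cons]
        exact Subgroup.mul_mem _
          (Subgroup.subset_closure ⟨k, hω k List.mem_cons_self, rfl⟩)
          (ih2 (fun m hm => hω m (List.mem_cons_of_mem _ hm)))
    have hω := hmem ω (fun k hk => h1 k (List.mem_append_left _ hk))
    have hi : cs.simple i ∈ Subgroup.closure (cs.simple '' J) :=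
      Subgroup.subset_closure ⟨i, h1 i (by simp), rfl⟩
    rw [cs.wordProd_append, cs.wordProd_singleton, ← mul_assoc, List.length_append,
      List.length_singleton]
    rcases cs.length_mul_simple (cs.wordProd τ * cs.wordProd ω) i with h4 | h4
    · omega
    · exfalso
      rw [← cs.wordProd_append] at h4 h3
      obtain ⟨j, hj, h5⟩ := exch cs (τ ++ ω) i (by omega)
      by_cases hjt : j < τ.length
      · rw [List.eraseIdx_append_of_lt_length hjt, cs.wordProd_append, cs.wordProd_append] at h5
        have h6 : cs.wordProd (τ.eraseIdx j) =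
            cs.wordProd τ * (cs.wordProd ω * cs.simple i * (cs.wordProd ω)⁻¹) := by
          rw [← mul_assoc, ← mul_assoc, h5, mul_inv_cancel_right]
        have h7 := hx _ (Subgroup.mul_mem _ (Subgroup.mul_mem _ hω hi) (Subgroup.inv_mem _ hω))
        rw [← h6] at h7
        have h8 := cs.length_wordProd_le (τ.eraseIdx j)
        rw [List.length_eraseIdx_of_lt hjt] at h8
        have h9 := hτ.eq
        omega
      · push Not at hjt
        rw [List.eraseIdx_append_of_length_le hjt, cs.wordProd_append, cs.wordProd_append,
          mul_assoc] at h5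
        have h6 := mul_left_cancel h5
        have h7 := h2.eq
        rw [cs.wordProd_append, cs.wordProd_singleton, h6, List.length_append,
          List.length_singleton] at h7
        have h8 := cs.length_wordProd_le (ω.eraseIdx (j - τ.length))
        have h9 := List.length_eraseIdx_le ω (j - τ.length)
        omega

theorem up_len (x u : W) (J : Set B) (hJ : ∀ i ∈ J, ¬ cs.IsRightDescent x i)
    (hu : u ∈ Subgroup.closure (cs.simple '' J)) :
    cs.length (x * u) = cs.length x + cs.length u := by
  classical
  -- an element of minimal length in the coset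
  have hex : ∃ n, ∃ v ∈ Subgroup.closure (cs.simple '' J), cs.length (x * v) = n :=
    ⟨_, 1, Subgroup.one_mem _, rfl⟩
  obtain ⟨v, hv, hvl⟩ := Nat.find_spec hex
  have hmin : ∀ w ∈ Subgroup.closure (cs.simple '' J),
      cs.length (x * v) ≤ cs.length (x * v * w) := by
    intro w hw
    rw [hvl]
    apply Nat.find_min' hex
    exact ⟨v * w, Subgroup.mul_mem _ hv hw, by rw [mul_assoc]⟩
  -- x = (x v) v⁻¹
  have hv1 : v = 1 := by
    obtain ⟨ω, h1, h2, h3⟩ := red_word cs J v⁻¹ (Subgroup.inv_mem _ hv)
    rcases List.eq_nil_or_concat' ω with rfl | ⟨ω', i, rfl⟩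
    · simp at h3
      exact h3
    · exfalso
      have h4 := up_word cs J (x * v) hmin _ h1 h2
      rw [h3, mul_inv_cancel_right] at h4
      have h2' : cs.IsReduced ω' := by
        have := h2.take ω'.length
        simpa using this
      have h5 := up_word cs J (x * v) hmin ω' (fun k hk => h1 k (by simp [hk])) h2'
      have h6 : x * v * cs.wordProd ω' = x * cs.simple i := by
        have : x = x * v * cs.wordProd (ω' ++ [i]) := by
          rw [h3, mul_inv_cancel_right]
        rw [cs.wordProd_append, cs.wordProd_singleton] at this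
        nth_rw 2 [this]
        rw [mul_assoc (x * v), mul_assoc (cs.wordProd ω'), cs.simple_mul_simple_self, mul_one]
      rw [h6] at h5
      apply hJ i (h1 i (by simp))
      unfold CoxeterSystem.IsRightDescent
      rw [List.length_append, List.length_singleton] at h4
      omega
  rw [hv1, mul_one] at hmin
  obtain ⟨ω, h1, h2, rfl⟩ := red_word cs J u hu
  rw [up_word cs J x hmin ω h1 h2, h2.eq]

end Cox957
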