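import Pool.Agent.helper957_gc.W6

set_option autoImplicit false
set_option linter.unusedSectionVars false

/-! Rational direction, conclusion. -/

open CategoryTheory

namespace Cox957

namespace CDat

variable {B G : Type} [LinearOrder B] [Fintype B] [Group G] (X : CDat B G)
variable {Δ : Type} [Group Δ] {j : Δ →* G}

/-- the linear form given by the pairing -/
noncomputable def prL (g : Finset B → ℚ) (n : ℕ) : X.C ℚ n →ₗ[ℚ] ℚ where
  toFun a := X.pr g a.1
  map_add' a b := X.pr_add g a.2 b.2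
  map_smul' c a := X.pr_smul g a.2 c

variable (j) in
/-- the pairing as a map of representations -/
noncomputable def prR (g : Finset B → ℚ) (n : ℕ) : X.CR ℚ j n ⟶ Rep.of (X.sgRep j) :=
  Rep.ofHom (LinearMap.intertwiningMap_of_isIntertwiningMap _ _ (X.prL g n) (by
    intro δ v
    exact X.pr_tr g (j δ) v.1))

theorem avg [Fintype (G ⧸ j.range)] (Θ : G → ℚ) (hΘ : ∀ z δ, Θ (z * j δ) = Θ z) (u : G) :
    ∑ c : G ⧸ j.range, Θ (u * c.out) = ∑ c : G ⧸ j.range, Θ c.out := by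
  have h1 : ∀ z, Θ z = Θ (QuotientGroup.mk (s := j.range) z).out := by
    intro z
    obtain ⟨⟨_, δ, rfl⟩, h⟩ := QuotientGroup.mk_out_eq_mul j.range z
    rw [h]
    exact (hΘ z δ).symm
  have h2 : ∀ c : G ⧸ j.range, Θ (u * c.out) = Θ ((u • c).out) := by
    intro c
    rw [h1 (u * c.out)]
    congr 2
    conv_rhs => rw [← QuotientGroup.out_eq' c]
    rfl
  rw [Finset.sum_congr rfl (fun c _ => h2 c)]
  exact Equiv.sum_comp (MulAction.toPerm (α := G) (β := G ⧸ j.range) u)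
    (fun c : G ⧸ j.range => Θ c.out)

theorem ratl (hj : Function.Injective j) (tf : ∀ δ : Δ, IsOfFinOrder δ → δ = 1)
    [Finite (G ⧸ j.range)] (m : ℕ)
    (H : ∀ A : Rep.{0} ℚ Δ, Subsingleton (groupCohomology A (m + 1)))
    (g : Finset B → ℚ) (hg : ∀ T, X.Sph T → T.card = m + 1 + 1 → dlt g T = 0) :
    ∃ h : Finset B → ℚ, ∀ T, X.Sph T → T.card = m + 1 → g T = dlt h T := by
  classical
  have : Fintype (G ⧸ j.range) := Fintype.ofFinite _
  obtain ⟨h, hh', heq⟩ : ∃ h : X.C ℚ m →ₗ[ℚ] ℚ, (∀ a, h (X.dL ℚ m a) = X.pr g a.1) ∧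
      (∀ (δ : Δ) (a : X.C ℚ m), h (X.rho j m δ a) = (X.chi (j δ) : ℚ) * h a) := by
    obtain ⟨h, hh⟩ := (X.coh_iff ℚ hj tf m (Rep.of (X.sgRep j))).mp (H _) (X.prR j g (m + 1)) (by
      apply Rep.hom_ext
      apply Representation.IntertwiningMap.ext
      apply LinearMap.ext
      intro a
      exact X.pr_bd g hg a.2)
    refine ⟨h.hom.toLinearMap, ?_, ?_⟩
    · intro a
      have := congrArg (fun q => q.hom a) hh
      exact this
    · intro δ a
      exact Rep.hom_comm_apply h δ a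
  -- extended generators
  set E : G → Finset B → X.C ℚ m := fun y S =>
    if hS : X.Sph S ∧ S.card = m then ⟨X.e y S, X.e_mem y hS.1 hS.2⟩ else 0 with hE
  have hEρ : ∀ (δ : Δ) y S, X.rho j m δ (E y S) = E (j δ * y) S := by
    intro δ y S
    simp only [hE]
    by_cases hS : X.Sph S ∧ S.card = m
    · rw [dif_pos hS, dif_pos hS]
      apply Subtype.ext
      rw [rho_apply]
      exact X.tr_e (j δ) y S
    · rw [dif_neg hS, dif_neg hS, map_zero]
  set η : Finset B → G → ℚ := fun S z => (X.chi z⁻¹ : ℚ) * h (E z⁻¹ S) with hη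
  have hηinv : ∀ S z δ, η S (z * j δ) = η S z := by
    intro S z δ
    simp only [hη]
    rw [mul_inv_rev, ← map_inv, ← hEρ, heq, X.chi_mulQ]
    have := X.chi_sqQ (j δ⁻¹)
    calc (X.chi (j δ⁻¹) : ℚ) * (X.chi z⁻¹ : ℚ) * ((X.chi (j δ⁻¹) : ℚ) * h (E z⁻¹ S)) =
        ((X.chi (j δ⁻¹) : ℚ) * (X.chi (j δ⁻¹) : ℚ)) * ((X.chi z⁻¹ : ℚ) * h (E z⁻¹ S)) := by ring
      _ = _ := by rw [this, one_mul]
  set N : ℚ := (Fintype.card (G ⧸ j.range) : ℚ) with hN
  have hN0 : N ≠ 0 := by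
    rw [hN]
    exact_mod_cast Fintype.card_ne_zero
  refine ⟨fun S => (∑ c : G ⧸ j.range, η S c.out) * ((Nat.card (X.W S) : ℚ)⁻¹ * N⁻¹), ?_⟩
  intro T hT hTc
  have hWT : (Nat.card (X.W T) : ℚ) ≠ 0 := by
    have : Finite (X.W T) := hT.2.to_subtype
    exact_mod_cast Nat.card_pos.ne'
  -- the identity at one point
  have key : ∀ y : G, (Nat.card (X.W T) : ℚ) * g T =
      ∑ t ∈ T, ((sg t T : ℚ) * (Nat.card (X.W (T.erase t)) : ℚ)⁻¹) *
        ∑ u ∈ hT.2.toFinset, η (T.erase t) (u⁻¹ * y⁻¹) := by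
    intro y
    have h1 := hh' ⟨X.e y T, X.e_mem y hT hTc⟩
    rw [X.pr_e g y hT] at h1
    have h2 : X.dL ℚ m ⟨X.e y T, X.e_mem y hT hTc⟩ =
        ∑ t ∈ T, ((sg t T : ℚ) * (Nat.card (X.W (T.erase t)) : ℚ)⁻¹) •
          ∑ u ∈ hT.2.toFinset, (X.chi u : ℚ) • E (y * u) (T.erase t) := by
      apply Subtype.ext
      show bdG (X.e y T : G → Finset B → ℚ) = _
      rw [X.bd_e y hT]
      rw [AddSubmonoidClass.coe_finsetSum]
      apply Finset.sum_congr rfl
      intro t ht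
      rw [Submodule.coe_smul, AddSubmonoidClass.coe_finsetSum]
      congr 1
      apply Finset.sum_congr rfl
      intro u _
      rw [Submodule.coe_smul]
      congr 1
      simp only [hE]
      rw [dif_pos ⟨X.sph_mono (Finset.erase_subset _ _) hT, by
        rw [Finset.card_erase_of_mem ht, hTc]; rfl⟩]
    rw [h2] at h1
    have h3 : (X.chi y : ℚ) * ((Nat.card (X.W T) : ℚ) * (X.chi y : ℚ) * g T) =
        (Nat.card (X.W T) : ℚ) * g T := by
      have := X.chi_sqQ y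
      calc _ = ((X.chi y : ℚ) * (X.chi y : ℚ)) * ((Nat.card (X.W T) : ℚ) * g T) := by ring
        _ = _ := by rw [this, one_mul]
    rw [← h3, ← h1]
    rw [map_sum, Finset.mul_sum]
    apply Finset.sum_congr rfl
    intro t _
    rw [map_smul, map_sum, smul_eq_mul]
    rw [mul_left_comm]
    congr 1
    rw [Finset.mul_sum]
    apply Finset.sum_congr rfl
    intro u _
    rw [map_smul, smul_eq_mul]
    simp only [hη]
    rw [mul_inv_rev, inv_inv, inv_inv, X.chi_mulQ]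
    ring
  have hsum : N * ((Nat.card (X.W T) : ℚ) * g T) =
      ∑ t ∈ T, ((sg t T : ℚ) * (Nat.card (X.W (T.erase t)) : ℚ)⁻¹) *
        ((Nat.card (X.W T) : ℚ) * ∑ c : G ⧸ j.range, η (T.erase t) c.out) := by
    have h1 : N * ((Nat.card (X.W T) : ℚ) * g T) =
        ∑ c : G ⧸ j.range, (Nat.card (X.W T) : ℚ) * g T := by
      rw [Finset.sum_const, nsmul_eq_mul]
      rfl
    rw [h1, Finset.sum_congr rfl (fun (c : G ⧸ j.range) _ => key c.out⁻¹)]
    rw [Finset.sum_comm]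
    apply Finset.sum_congr rfl
    intro t _
    rw [← Finset.mul_sum]
    congr 1
    rw [Finset.sum_comm]
    simp only [inv_inv]
    rw [Finset.sum_congr rfl (fun u _ => avg (j := j) (η (T.erase t)) (hηinv (T.erase t)) u⁻¹)]
    rw [Finset.sum_const, nsmul_eq_mul]
    have hc : ((hT.2.toFinset.card : ℕ) : ℚ) = (Nat.card (X.W T) : ℚ) := by
      rw [← Nat.card_eq_card_finite_toFinset]
      rfl
    rw [hc]
  have hfin : N * (Nat.card (X.W T) : ℚ) ≠ 0 := mul_ne_zero hN0 hWT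
  apply mul_left_cancel₀ hfin
  rw [mul_assoc, hsum]
  unfold dlt
  rw [Finset.mul_sum]
  apply Finset.sum_congr rfl
  intro t _
  rw [zsmul_eq_mul]
  field_simp

end CDat

end Cox957
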