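import Pool.Agent.helper957_gc.W9
import Pool.Agent.helper957_gc.W7

set_option autoImplicit false
set_option linter.unusedSectionVars false

/-! Compactly supported cochains. -/

open CategoryTheory

namespace Cox957

namespace CDat

variable {B G : Type} [LinearOrder B] [Fintype B] [Group G] (X : CDat B G)
variable {A : Type} [AddCommGroup A]

open Classical in
/-- extended generators -/
noncomputable def E (n : ℕ) (x : G) (T : Finset B) : X.C ℤ n :=
  if h : X.Sph T ∧ T.card = n then ⟨X.e x T, X.e_mem x h.1 h.2⟩ else 0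

theorem E_val {n : ℕ} {T : Finset B} (hT : X.Sph T) (hc : T.card = n) (x : G) :
    (X.E n x T).1 = X.e x T := by
  unfold E
  rw [dif_pos ⟨hT, hc⟩]

theorem E_zero {n : ℕ} {T : Finset B} (h : ¬ (X.Sph T ∧ T.card = n)) (x : G) :
    X.E n x T = 0 := by
  unfold E
  rw [dif_neg h]

theorem expandE {n : ℕ} (a : X.C ℤ n) (S : Finset G) (hS : ∀ x, a.1 x ≠ 0 → x ∈ S) :
    a = ∑ x ∈ S, ∑ T ∈ (X.ot x).powerset, a.1 x T • X.E n x T := by
  apply Subtype.ext
  rw [AddSubmonoidClass.coe_finsetSum]
  conv_lhs => rw [X.expand a.2 S hS]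
  apply Finset.sum_congr rfl
  intro x _
  rw [AddSubmonoidClass.coe_finsetSum]
  apply Finset.sum_congr rfl
  intro T _
  rw [Submodule.coe_smul]
  by_cases h : a.1 x T = 0
  · rw [h, zero_smul, zero_smul]
  · obtain ⟨h1, h2⟩ := a.2.1 x T h
    rw [X.E_val h2 h1]

theorem phi_expand {n : ℕ} (φ : X.C ℤ n →ₗ[ℤ] A) (a : X.C ℤ n) (S : Finset G)
    (hS : ∀ x, a.1 x ≠ 0 → x ∈ S) :
    φ a = ∑ x ∈ S, ∑ T ∈ (X.ot x).powerset, a.1 x T • φ (X.E n x T) := by
  conv_lhs => rw [X.expandE a S hS]
  rw [map_sum]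
  apply Finset.sum_congr rfl
  intro x _
  rw [map_sum]
  apply Finset.sum_congr rfl
  intro T _
  rw [map_zsmul]

/-- two forms agreeing on the generators at minimal representatives are equal -/
theorem phi_ext {n : ℕ} (φ ψ : X.C ℤ n →ₗ[ℤ] A)
    (h : ∀ x T, T ⊆ X.ot x → X.Sph T → T.card = n → φ (X.E n x T) = ψ (X.E n x T)) : φ = ψ := by
  apply LinearMap.ext
  intro a
  rw [X.phi_expand φ a a.2.2.2.toFinset (fun x hx => a.2.2.2.mem_toFinset.mpr hx),
    X.phi_expand ψ a a.2.2.2.toFinset (fun x hx => a.2.2.2.mem_toFinset.mpr hx)]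
  apply Finset.sum_congr rfl
  intro x _
  apply Finset.sum_congr rfl
  intro T hT
  by_cases h1 : a.1 x T = 0
  · rw [h1, zero_smul, zero_smul]
  · obtain ⟨h2, h3⟩ := a.2.1 x T h1
    rw [h x T (Finset.mem_powerset.mp hT) h3 h2]

/-- the value of a form on the boundary of a generator -/
theorem star {m : ℕ} (φ : X.C ℤ m →ₗ[ℤ] A) {x : G} {T' : Finset B} (hT : X.Sph T')
    (hc : T'.card = m + 1) (ho : T' ⊆ X.ot x)
    (h : ∀ y T, T ⊆ X.ot y → X.l x < X.l y → φ (X.E m y T) = 0) :
    φ (X.dL ℤ m (X.E (m + 1) x T')) = dlt (fun T => φ (X.E m x T)) T' := by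
  classical
  set a := X.dL ℤ m (X.E (m + 1) x T') with ha
  have hav : a.1 = bdG (X.e x T' : G → Finset B → ℤ) := by
    show bdG (X.E (m + 1) x T').1 = _
    rw [X.E_val hT hc]
  set S : Finset G := insert x a.2.2.2.toFinset with hS
  rw [X.phi_expand φ a S (fun y hy => Finset.mem_insert_of_mem (a.2.2.2.mem_toFinset.mpr hy))]
  have hsupp : ∀ y T, a.1 y T ≠ 0 → x⁻¹ * y ∈ X.W T' ∧ T ⊆ T' := by
    intro y T hne
    rw [hav] at hne
    unfold bdG bd at hne
    obtain ⟨t, _, h1⟩ := Finset.exists_ne_zero_of_sum_ne_zero hne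
    have h2 : (X.e x T' y (insert t T) : ℤ) ≠ 0 := by
      intro h3
      rw [h3, smul_zero] at h1
      exact h1 rfl
    obtain ⟨h3, h4⟩ := X.e_ne h2
    exact ⟨h4, by rw [← h3]; exact Finset.subset_insert _ _⟩
  rw [Finset.sum_eq_single x]
  · have h1 : ∑ T ∈ (X.ot x).powerset, a.1 x T • φ (X.E m x T) =
        ∑ T, a.1 x T • φ (X.E m x T) := by
      apply Finset.sum_subset (Finset.subset_univ _)
      intro T _ hT2
      by_cases h2 : a.1 x T = 0
      · rw [h2, zero_smul]
      · exfalso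
        apply hT2
        rw [Finset.mem_powerset]
        exact (hsupp x T h2).2.trans ho
    rw [h1]
    have h2 : a.1 x = bd (X.e x T' x : Finset B → ℤ) := by
      rw [hav]; rfl
    rw [h2, pair_bd]
    rw [Finset.sum_eq_single T']
    · rw [X.e_self, one_smul]
    · intro T _ hne
      have : (X.e x T' x T : ℤ) = 0 := by
        by_contra h3
        exact hne (X.e_ne h3).1
      rw [this, zero_smul]
    · intro h3
      exact absurd (Finset.mem_univ _) h3
  · intro y _ hyx
    apply Finset.sum_eq_zero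
    intro T hT2
    by_cases h2 : a.1 y T = 0
    · rw [h2, zero_smul]
    · have h3 := (hsupp y T h2).1
      have h4 := X.up' ho h3 (by
        intro h5
        rw [inv_mul_eq_one] at h5
        exact hyx h5.symm)
      rw [mul_inv_cancel_left] at h4
      rw [h y T (Finset.mem_powerset.mp hT2) h4, smul_zero]
  · intro h2
    exact absurd (Finset.mem_insert_self _ _) h2

/-- compact support -/
def CS {n : ℕ} (φ : X.C ℤ n →ₗ[ℤ] A) : Prop :=
  ∃ N, ∀ x T, T ⊆ X.ot x → N < X.l x → φ (X.E n x T) = 0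

theorem dL_dL (m : ℕ) (a : X.C ℤ (m + 2)) : X.dL ℤ m (X.dL ℤ (m + 1) a) = 0 :=
  Subtype.ext (bdG_bdG a.1)

/-- the level form -/
noncomputable def lev (m : ℕ) (L : Finset G) (b : G → Finset B → A) : X.C ℤ m →ₗ[ℤ] A where
  toFun a := ∑ x ∈ L, ∑ T ∈ (X.ot x).powerset, a.1 x T • b x T
  map_add' a a' := by
    rw [← Finset.sum_add_distrib]
    apply Finset.sum_congr rfl
    intro x _
    rw [← Finset.sum_add_distrib]
    apply Finset.sum_congr rfl
    intro T _
    rw [← add_smul]
    rfl
  map_smul' c a := by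
    rw [Finset.smul_sum]
    apply Finset.sum_congr rfl
    intro x _
    rw [Finset.smul_sum]
    apply Finset.sum_congr rfl
    intro T _
    rw [smul_smul]
    rfl

theorem lev_apply (m : ℕ) (L : Finset G) (b : G → Finset B → A) (a : X.C ℤ m) :
    X.lev m L b a = ∑ x ∈ L, ∑ T ∈ (X.ot x).powerset, a.1 x T • b x T := rfl

open Classical in
theorem lev_E {m : ℕ} {L : Finset G} {b : G → Finset B → A} {y : G} {S : Finset B}
    (hS : X.Sph S) (hc : S.card = m) (ho : S ⊆ X.ot y) :
    X.lev m L b (X.E m y S) = if y ∈ L then b y S else 0 := by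
  rw [lev_apply]
  rw [X.E_val hS hc]
  have hkey : ∀ x T, T ⊆ X.ot x → (X.e y S x T : ℤ) ≠ 0 → x = y ∧ T = S := by
    intro x T hT hne
    obtain ⟨rfl, h2⟩ := X.e_ne hne
    exact ⟨(X.min_unique ho hT h2).symm, rfl⟩
  by_cases hy : y ∈ L
  · rw [if_pos hy, Finset.sum_eq_single y, Finset.sum_eq_single S]
    · rw [X.e_self, one_smul]
    · intro T hT hne
      have : (X.e y S y T : ℤ) = 0 := by
        by_contra h
        exact hne (hkey y T (Finset.mem_powerset.mp hT) h).2
      rw [this, zero_smul]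
    · intro h
      exact absurd (Finset.mem_powerset.mpr ho) h
    · intro x _ hxy
      apply Finset.sum_eq_zero
      intro T hT
      have : (X.e y S x T : ℤ) = 0 := by
        by_contra h
        exact hxy (hkey x T (Finset.mem_powerset.mp hT) h).1
      rw [this, zero_smul]
    · intro h
      exact absurd hy h
  · rw [if_neg hy]
    apply Finset.sum_eq_zero
    intro x hx
    apply Finset.sum_eq_zero
    intro T hT
    have : (X.e y S x T : ℤ) = 0 := by
      by_contra h
      apply hy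
      rw [← (hkey x T (Finset.mem_powerset.mp hT) h).1]
      exact hx
    rw [this, zero_smul]

theorem compact_exact {m : ℕ} (hOV : ∀ x, OV {T | X.Sph T ∧ T ⊆ X.ot x} A (m + 1)) (N : ℕ) :
    ∀ φ : X.C ℤ (m + 1) →ₗ[ℤ] A, (∀ a, φ (X.dL ℤ (m + 1) a) = 0) →
    (∀ x T, T ⊆ X.ot x → N ≤ X.l x → φ (X.E (m + 1) x T) = 0) →
    ∃ ψ : X.C ℤ m →ₗ[ℤ] A, (∀ a, φ a = ψ (X.dL ℤ m a)) ∧ X.CS ψ := by
  classical
  induction N with
  | zero =>
    intro φ _ h
    have h0 : φ = 0 := by
      apply X.phi_ext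
      intro x T hT _ _
      rw [h x T hT (Nat.zero_le _)]
      rfl
    refine ⟨0, ?_, 0, fun _ _ _ _ => rfl⟩
    intro a
    rw [h0]; rfl
  | succ N ih =>
    intro φ hφ h
    -- the local primitives
    have hch : ∀ x, ∃ b : Finset B → A, X.l x = N →
        ∀ T, X.Sph T → T ⊆ X.ot x → T.card = m + 1 → φ (X.E (m + 1) x T) = dlt b T := by
      intro x
      by_cases hx : X.l x = N
      · obtain ⟨b, hb⟩ := hOV x (fun T => φ (X.E (m + 1) x T)) (by
          rintro T ⟨h1, h2⟩ hc
          rw [← X.star φ h1 hc h2 (by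
            intro y T hT hy
            exact h y T hT (by omega))]
          exact hφ _)
        exact ⟨b, fun _ T h1 h2 h3 => hb T ⟨h1, h2⟩ h3⟩
      · exact ⟨fun _ => 0, fun h1 => absurd h1 hx⟩
    choose b hb using hch
    set L : Finset G := (X.fin N).toFinset.filter (fun x => X.l x = N) with hL
    have hLm : ∀ x, x ∈ L ↔ X.l x = N := by
      intro x
      rw [hL, Finset.mem_filter, Set.Finite.mem_toFinset]
      exact ⟨fun h => h.2, fun h => ⟨h.le, h⟩⟩
    set ψN := X.lev m L b with hψN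
    have hψ0 : ∀ y T, T ⊆ X.ot y → N < X.l y → ψN (X.E m y T) = 0 := by
      intro y T hT hy
      by_cases hs : X.Sph T ∧ T.card = m
      · rw [hψN, X.lev_E hs.1 hs.2 hT, if_neg]
        rw [hLm]
        omega
      · rw [X.E_zero hs, map_zero]
    have hψ1 : ∀ y T, T ⊆ X.ot y → X.Sph T → T.card = m → X.l y = N →
        ψN (X.E m y T) = b y T := by
      intro y T hT h1 h2 hy
      rw [hψN, X.lev_E h1 h2 hT, if_pos ((hLm y).mpr hy)]
    obtain ⟨ψ', hψ', N', hN'⟩ := ih (φ - ψN ∘ₗ X.dL ℤ m) (by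
        intro a
        rw [LinearMap.sub_apply, LinearMap.comp_apply, hφ, X.dL_dL, map_zero, sub_zero]) (by
        intro x T hT hx
        by_cases hs : X.Sph T ∧ T.card = m + 1
        · obtain ⟨h1, h2⟩ := hs
          rw [LinearMap.sub_apply, LinearMap.comp_apply]
          rw [X.star ψN h1 h2 hT (by
            intro y T' hT' hy
            exact hψ0 y T' hT' (by omega))]
          rcases Nat.lt_or_ge N (X.l x) with hlt | hge
          · rw [h x T hT (by omega)]
            have : dlt (fun T => ψN (X.E m x T)) T = 0 := by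
              unfold dlt
              apply Finset.sum_eq_zero
              intro t _
              show sg t T • ψN (X.E m x (T.erase t)) = 0
              rw [hψ0 x _ ((Finset.erase_subset _ _).trans hT) hlt, smul_zero]
            rw [this, sub_zero]
          · have hxN : X.l x = N := by omega
            rw [hb x hxN T h1 hT h2, sub_eq_zero]
            apply dlt_congr
            intro t ht
            show b x (T.erase t) = ψN (X.E m x (T.erase t))
            rw [hψ1 x _ ((Finset.erase_subset _ _).trans hT)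
              (X.sph_mono (Finset.erase_subset _ _) h1)
              (by rw [Finset.card_erase_of_mem ht, h2]; rfl) hxN]
        · rw [X.E_zero hs, map_zero])
    refine ⟨ψN + ψ', ?_, max N N', ?_⟩
    · intro a
      rw [LinearMap.add_apply, ← hψ' a, LinearMap.sub_apply, LinearMap.comp_apply]
      abel
    · intro x T hT hx
      rw [LinearMap.add_apply, hψ0 x T hT (lt_of_le_of_lt (le_max_left _ _) hx),
        hN' x T hT (lt_of_le_of_lt (le_max_right _ _) hx), add_zero]

/-- exactness for compactly supported forms -/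
theorem compact_exact' {m : ℕ} (hOV : ∀ x, OV {T | X.Sph T ∧ T ⊆ X.ot x} A (m + 1))
    (φ : X.C ℤ (m + 1) →ₗ[ℤ] A) (hφ : ∀ a, φ (X.dL ℤ (m + 1) a) = 0) (hcs : X.CS φ) :
    ∃ ψ : X.C ℤ m →ₗ[ℤ] A, (∀ a, φ a = ψ (X.dL ℤ m a)) ∧ X.CS ψ := by
  obtain ⟨N, hN⟩ := hcs
  exact X.compact_exact hOV (N + 1) φ hφ (fun x T hT hx => hN x T hT (by omega))

end CDat

end Cox957
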