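import Pool.Agent.helper957_gc.W10

set_option autoImplicit false
set_option linter.unusedSectionVars false

/-! Integral direction. -/

open CategoryTheory

namespace Cox957

section FR

variable (Δ : Type) [Group Δ] (A : Type) [AddCommGroup A]

/-- the induced representation -/
noncomputable def frho : Representation ℤ Δ (Δ →₀ A) where
  toFun δ := Finsupp.lmapDomain A ℤ (fun γ => δ * γ)
  map_one' := by
    apply LinearMap.ext
    intro f
    show Finsupp.mapDomain (fun γ => 1 * γ) f = f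
    simp only [one_mul]
    exact Finsupp.mapDomain_id
  map_mul' δ ε := by
    apply LinearMap.ext
    intro f
    show Finsupp.mapDomain (fun γ => δ * ε * γ) f =
      Finsupp.mapDomain (fun γ => δ * γ) (Finsupp.mapDomain (fun γ => ε * γ) f)
    rw [← Finsupp.mapDomain_comp]
    congr 1
    funext γ
    exact mul_assoc δ ε γ

variable {Δ A} in
theorem frho_apply (δ : Δ) (f : Δ →₀ A) (γ : Δ) : frho Δ A δ f γ = f (δ⁻¹ * γ) := by
  have h := Finsupp.mapDomain_apply (f := fun γ : Δ => δ * γ) (mul_right_injective δ) f (δ⁻¹ * γ)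
  rw [mul_inv_cancel_left] at h
  exact h

end FR

namespace CDat

variable {B G : Type} [LinearOrder B] [Fintype B] [Group G] (X : CDat B G)
variable {A : Type} [AddCommGroup A]
variable {Δ : Type} [Group Δ] {j : Δ →* G}

theorem e_mul {k : Type} [CommRing k] (y : G) {T : Finset B} {u : G} (hu : u ∈ X.W T) :
    (X.e (y * u) T : G → Finset B → k) = (X.chi u : k) • X.e y T := by
  funext z T'
  simp only [Pi.smul_apply, smul_eq_mul]
  unfold e
  have h1 : (y * u)⁻¹ * z = u⁻¹ * (y⁻¹ * z) := by group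
  rw [h1]
  by_cases h : T' = T ∧ y⁻¹ * z ∈ X.W T
  · rw [if_pos h, if_pos ⟨h.1, Subgroup.mul_mem _ (Subgroup.inv_mem _ hu) h.2⟩, X.chi_mul,
      X.chi_inv]
    push_cast
    rfl
  · rw [if_neg h, if_neg, mul_zero]
    rintro ⟨h2, h3⟩
    apply h
    refine ⟨h2, ?_⟩
    have := Subgroup.mul_mem _ hu h3
    rwa [mul_inv_cancel_left] at this

theorem finR [Finite (G ⧸ j.range)] (n : ℕ) : Finite (X.R j n) := by
  apply Finite.of_injective
    (fun p : X.R j n => ((QuotientGroup.mk p.1.1⁻¹ : G ⧸ j.range), p.1.2))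
  intro p p' h
  simp only [Prod.mk.injEq] at h
  obtain ⟨h1, h2⟩ := h
  rw [QuotientGroup.eq, inv_inv] at h1
  obtain ⟨δ, hδ⟩ := h1
  obtain ⟨⟨r, T⟩, hp1, hp2, hp3⟩ := p
  obtain ⟨⟨r', T'⟩, hp1', hp2', hp3'⟩ := p'
  simp only at h2 hδ hp3 hp3'
  subst h2
  have h3 : r = r' := by
    rw [hp3, hp3']
    symm
    apply X.rep_eq
    refine ⟨δ, 1, Subgroup.one_mem _, ?_⟩
    rw [hδ]
    group
  subst h3
  rfl

variable (Δ A) in
/-- the induced representation as an object -/
noncomputable def FR : Rep.{0} ℤ Δ := Rep.of (frho Δ A)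

theorem free_van (hj : Function.Injective j) (tf : ∀ δ : Δ, IsOfFinOrder δ → δ = 1)
    [Finite (G ⧸ j.range)] {m : ℕ}
    (hOV : ∀ x, OV {T | X.Sph T ∧ T ⊆ X.ot x} A (m + 1)) :
    Subsingleton (groupCohomology (FR A Δ) (m + 1)) := by
  classical
  rw [X.coh_iff ℤ hj tf m]
  intro f hf
  have : Finite (X.R j (m + 1)) := X.finR (m + 1)
  -- the linear map
  obtain ⟨fl, hfl1, hfl2, hfl3⟩ : ∃ fl : X.C ℤ (m + 1) →ₗ[ℤ] (Δ →₀ A),
      (∀ a, fl a = f.hom a) ∧ (∀ a, fl (X.dL ℤ (m + 1) a) = 0) ∧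
      (∀ (δ : Δ) a, fl (X.rho j (m + 1) δ a) = frho Δ A δ (fl a)) := by
    refine ⟨f.hom.toLinearMap, fun a => rfl, ?_, ?_⟩
    · intro a
      exact congrArg (fun q => q.hom a) hf
    · intro δ a
      exact Rep.hom_comm_apply f δ a
  set φ : X.C ℤ (m + 1) →ₗ[ℤ] A := (Finsupp.lapply 1) ∘ₗ fl with hφ
  have hφa : ∀ (γ : Δ) a, φ (X.rho j (m + 1) γ⁻¹ a) = fl a γ := by
    intro γ a
    show fl (X.rho j (m + 1) γ⁻¹ a) 1 = fl a γ
    rw [hfl3, frho_apply, inv_inv, mul_one]
  have hcs : X.CS φ := by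
    set D : Finset Δ := (Set.toFinite (Set.univ : Set (X.R j (m + 1)))).toFinset.biUnion
      (fun p => (fl (X.be (1, p))).support) with hD
    have hDm : ∀ (p : X.R j (m + 1)) δ, fl (X.be (1, p)) δ ≠ 0 → δ ∈ D := by
      intro p δ hne
      rw [hD, Finset.mem_biUnion]
      exact ⟨p, by simp, Finsupp.mem_support_iff.mpr hne⟩
    set Z : Set G := ⋃ p : X.R j (m + 1), ⋃ δ ∈ D,
      (fun u => j δ⁻¹ * p.1.1 * u) '' (X.W p.1.2 : Set G) with hZ
    have hZf : Z.Finite := by
      rw [hZ]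
      apply Set.finite_iUnion
      intro p
      apply Set.Finite.biUnion D.finite_toSet
      intro δ _
      exact p.2.2.1.2.image _
    obtain ⟨N, hN⟩ := (hZf.image X.l).bddAbove
    refine ⟨N, ?_⟩
    intro x T _ hx
    by_contra hne
    have hs : X.Sph T ∧ T.card = m + 1 := by
      by_contra hs
      rw [X.E_zero hs, map_zero] at hne
      exact hne rfl
    obtain ⟨δ, u, hu, h3⟩ := X.rep_rel j T x
    set p : X.R j (m + 1) := ⟨(X.rep j T x, T), hs.2, hs.1, (X.rep_rep j T x).symm⟩ with hp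
    have h4 : X.E (m + 1) x T = X.chi u • (X.be (δ, p) : X.C ℤ (m + 1)) := by
      apply Subtype.ext
      rw [X.E_val hs.1 hs.2, Submodule.coe_smul]
      show X.e x T = X.chi u • X.e (j δ * X.rep j T x) T
      conv_lhs => rw [h3]
      rw [X.e_mul _ hu]
      rfl
    have h5 : φ (X.be (δ, p)) ≠ 0 := by
      intro h5
      rw [h4, map_zsmul, h5, smul_zero] at hne
      exact hne rfl
    have h6 : X.rho j (m + 1) δ (X.be (1, p)) = (X.be (δ, p) : X.C ℤ (m + 1)) := by
      rw [← X.bas_apply hj tf, X.rho_bas hj tf, X.bas_apply hj tf, mul_one]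
    have h7 : φ (X.be (δ, p)) = fl (X.be (1, p)) δ⁻¹ := by
      rw [← h6]
      have := hφa δ⁻¹ (X.be (1, p))
      rwa [inv_inv] at this
    rw [h7] at h5
    have h8 := hDm p _ h5
    have h9 : x ∈ Z := by
      rw [hZ, Set.mem_iUnion]
      refine ⟨p, ?_⟩
      rw [Set.mem_iUnion₂]
      refine ⟨δ⁻¹, h8, u, hu, ?_⟩
      show j δ⁻¹⁻¹ * X.rep j T x * u = x
      rw [inv_inv, ← h3]
    have h10 := hN (Set.mem_image_of_mem X.l h9)
    omega
  obtain ⟨ψ, hψ, N, hN⟩ := X.compact_exact' hOV φ (by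
    intro a
    show fl (X.dL ℤ (m + 1) a) 1 = 0
    rw [hfl2]; rfl) hcs
  -- the primitive
  have hfin : ∀ a : X.C ℤ m, (Function.support fun γ : Δ => ψ (X.rho j m γ⁻¹ a)).Finite := by
    intro a
    set Y : Finset G := ((X.fin N).toFinset ×ˢ a.2.2.2.toFinset).image
      (fun p => p.2 * p.1⁻¹) with hY
    apply Set.Finite.of_finite_image (f := j) _ hj.injOn
    apply Y.finite_toSet.subset
    rintro _ ⟨γ, hγ, rfl⟩
    rw [Function.mem_support] at hγ
    set c := X.rho j m γ⁻¹ a with hc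
    rw [X.phi_expand ψ c c.2.2.2.toFinset (fun x hx => c.2.2.2.mem_toFinset.mpr hx)] at hγ
    obtain ⟨x, hx, h1⟩ := Finset.exists_ne_zero_of_sum_ne_zero hγ
    obtain ⟨T, hT, h2⟩ := Finset.exists_ne_zero_of_sum_ne_zero h1
    rw [Finset.mem_powerset] at hT
    have h3 : X.l x ≤ N := by
      by_contra hn
      rw [hN x T hT (by omega), smul_zero] at h2
      exact h2 rfl
    have h4 : a.1 (j γ * x) ≠ 0 := by
      have h5 := c.2.2.2.mem_toFinset.mp hx
      have h6 : c.1 x = a.1 (j γ * x) := by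
        rw [hc, rho_apply]
        show a.1 ((j γ⁻¹)⁻¹ * x) = _
        rw [map_inv, inv_inv]
      rw [← h6]
      exact h5
    rw [Finset.mem_coe, hY, Finset.mem_image]
    refine ⟨(x, j γ * x), ?_, by simp⟩
    rw [Finset.mem_product]
    exact ⟨(X.fin N).mem_toFinset.mpr h3, a.2.2.2.mem_toFinset.mpr h4⟩
  refine ⟨Rep.ofHom (LinearMap.intertwiningMap_of_isIntertwiningMap _ _
    ({ toFun := fun a => Finsupp.ofSupportFinite _ (hfin a)
       map_add' := fun a b => by
        ext γ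
        show ψ (X.rho j m γ⁻¹ (a + b)) = ψ (X.rho j m γ⁻¹ a) + ψ (X.rho j m γ⁻¹ b)
        rw [map_add, map_add]
       map_smul' := fun c a => by
        ext γ
        show ψ (X.rho j m γ⁻¹ (c • a)) = c • ψ (X.rho j m γ⁻¹ a)
        rw [map_smul, map_smul] } : X.C ℤ m →ₗ[ℤ] (Δ →₀ A)) ?_), ?_⟩
  · intro δ a
    ext γ
    rw [frho_apply]
    show ψ (X.rho j m γ⁻¹ (X.rho j m δ a)) = ψ (X.rho j m (δ⁻¹ * γ)⁻¹ a)
    rw [mul_inv_rev, inv_inv, map_mul]
    rfl
  · apply Rep.hom_ext
    apply Representation.IntertwiningMap.ext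
    apply LinearMap.ext
    intro a
    change ↥(X.C ℤ (m + 1)) at a
    apply Finsupp.ext
    intro γ
    have h1 : X.rho j m γ⁻¹ (X.dL ℤ m a) = X.dL ℤ m (X.rho j (m + 1) γ⁻¹ a) := rfl
    have h2 : ψ (X.rho j m γ⁻¹ (X.dL ℤ m a)) = fl a γ := by
      rw [h1, ← hψ, hφa]
    rw [hfl1] at h2
    exact h2

include X in
/-- top degrees -/
theorem top_van (hj : Function.Injective j) (tf : ∀ δ : Δ, IsOfFinOrder δ → δ = 1) {m : ℕ}
    (hm : Fintype.card B ≤ m) (M : Rep.{0} ℤ Δ) : Subsingleton (groupCohomology M (m + 1)) := by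
  rw [X.coh_iff ℤ hj tf m]
  intro f _
  refine ⟨0, ?_⟩
  have hsub : ∀ a : X.C ℤ (m + 1), a = 0 := by
    intro a
    apply Subtype.ext
    funext x T
    by_contra h
    have h1 := (a.2.1 x T h).1
    have h2 := Finset.card_le_univ T
    omega
  apply hom_ext_basis (X.bas hj tf (m + 1)) (X.rho_bas hj tf (m + 1))
  intro r
  rw [hsub ((X.bas hj tf (m + 1)) (1, r))]
  exact (map_zero _).trans (map_zero _).symm

end CDat

section cover

variable {Δ : Type} [Group Δ] (M : Rep.{0} ℤ Δ)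

/-- the evaluation of a formal combination -/
noncomputable def evA : (M.V →₀ ℤ) →+ M.V :=
  Finsupp.liftAddHom (fun m => zmultiplesHom M.V m)

/-- the covering map -/
noncomputable def covA : (Δ →₀ (M.V →₀ ℤ)) →+ M.V :=
  Finsupp.liftAddHom (fun γ => ((M.ρ γ).toAddMonoidHom).comp (evA M))

theorem covA_single (γ : Δ) (c : M.V →₀ ℤ) : covA M (Finsupp.single γ c) = M.ρ γ (evA M c) := by
  unfold covA
  rw [Finsupp.liftAddHom_apply_single]
  rfl

section noint

attribute [-instance] AddCommGroup.toIntModule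

/-- the covering by an induced representation -/
noncomputable def cov : CDat.FR (M.V →₀ ℤ) Δ ⟶ M :=
  Rep.ofHom (LinearMap.intertwiningMap_of_isIntertwiningMap (CDat.FR (M.V →₀ ℤ) Δ).ρ M.ρ
    ({ toFun := covA M
       map_add' := map_add _
       map_smul' := fun c a => by
        rw [RingHom.id_apply]
        have h1 := int_smul_eq_zsmul M.hV2 c (covA M a)
        exact (map_zsmul (covA M) c a).trans h1.symm } :
      (CDat.FR (M.V →₀ ℤ) Δ).V →ₗ[ℤ] M.V) (by
      intro δ f
      show covA M (frho Δ (M.V →₀ ℤ) δ f) = M.ρ δ (covA M f)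
      induction f using Finsupp.induction_linear with
      | zero => simp
      | add f g hf hg => rw [map_add, map_add, hf, hg, map_add, map_add]
      | single γ c =>
        have h1 : frho Δ (M.V →₀ ℤ) δ (Finsupp.single γ c) = Finsupp.single (δ * γ) c :=
          Finsupp.mapDomain_single
        rw [h1, covA_single, covA_single, map_mul]
        rfl))

end noint

theorem cov_surj : Function.Surjective (cov M).hom := by
  intro m
  refine ⟨(Finsupp.single 1 (Finsupp.single m 1) : Δ →₀ (M.V →₀ ℤ)), ?_⟩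
  show covA M (Finsupp.single 1 (Finsupp.single m 1)) = m
  rw [covA_single, map_one]
  show evA M (Finsupp.single m 1) = m
  unfold evA
  rw [Finsupp.liftAddHom_apply_single]
  simp

theorem shift (n : ℕ)
    (h1 : Subsingleton (groupCohomology (CDat.FR (M.V →₀ ℤ) Δ) n))
    (h2 : ∀ N : Rep.{0} ℤ Δ, Subsingleton (groupCohomology N (n + 1))) :
    Subsingleton (groupCohomology M n) := by
  have hepi : Epi (cov M) := (Rep.epi_iff_surjective _).mpr (cov_surj M)
  set S : ShortComplex (Rep.{0} ℤ Δ) := ShortComplex.mk (Limits.kernel.ι (cov M)) (cov M)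
    (Limits.kernel.condition _) with hS
  have hex : S.Exact := ShortComplex.exact_of_f_is_kernel _ (Limits.kernelIsKernel (cov M))
  have hse : S.ShortExact := { exact := hex, mono_f := (inferInstance : Mono (Limits.kernel.ι (cov M))), epi_g := hepi }
  have hmono := groupCohomology.mono_δ_of_isZero hse n
    (ModuleCat.isZero_iff_subsingleton.mpr h1)
  have hz : Limits.IsZero (groupCohomology S.X₁ (n + 1)) :=
    ModuleCat.isZero_iff_subsingleton.mpr (h2 _)
  exact ModuleCat.isZero_iff_subsingleton.mp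
    (Limits.IsZero.of_mono (groupCohomology.δ hse n (n + 1) rfl) hz)

end cover

namespace CDat

variable {B G : Type} [LinearOrder B] [Fintype B] [Group G] (X : CDat B G)
variable {Δ : Type} [Group Δ] {j : Δ →* G}

theorem int_dir (hj : Function.Injective j) (tf : ∀ δ : Δ, IsOfFinOrder δ → δ = 1)
    [Finite (G ⧸ j.range)] (n0 : ℕ)
    (hOV : ∀ (ι : Type) (n : ℕ), n0 ≤ n → ∀ x, OV {T | X.Sph T ∧ T ⊆ X.ot x} (ι →₀ ℤ) n) :
    ∀ (k n : ℕ), n0 ≤ n → 1 ≤ n → Fintype.card B + 1 ≤ n + k → ∀ M : Rep.{0} ℤ Δ,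
      Subsingleton (groupCohomology M n) := by
  intro k
  induction k with
  | zero =>
    intro n _ h1 h2 M
    obtain ⟨m, rfl⟩ : ∃ m, n = m + 1 := ⟨n - 1, by omega⟩
    exact X.top_van hj tf (by omega) M
  | succ k ih =>
    intro n h0 h1 h2 M
    apply shift
    · obtain ⟨m, rfl⟩ : ∃ m, n = m + 1 := ⟨n - 1, by omega⟩
      exact X.free_van hj tf (fun x => hOV _ _ h0 x)
    · intro N
      exact ih (n + 1) (by omega) (by omega) (by omega) N

end CDat

end Cox957
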