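import Pool.Agent.helper957_gc.W11
import Pool.Agent.helper957_gc.W1

set_option autoImplicit false
set_option linter.unusedSectionVars false

/-! Coxeter groups. -/

open CategoryTheory

namespace Cox957

variable {B W : Type} [LinearOrder B] [Fintype B] {M : CoxeterMatrix B} [Group W]
  (cs : CoxeterSystem M W)

/-- special subgroups -/
def spc (U : Finset B) : Subgroup W := Subgroup.closure (cs.simple '' (U : Set B))

open Classical in
/-- generators of special subgroups -/
noncomputable def sgen (U : Finset B) (b : B) : spc cs U :=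
  if h : b ∈ U then ⟨cs.simple b, Subgroup.subset_closure ⟨b, h, rfl⟩⟩ else 1

theorem sgen_val {U : Finset B} {b : B} (h : b ∈ U) : (sgen cs U b : W) = cs.simple b := by
  unfold sgen
  rw [dif_pos h]

theorem map_clos {U : Finset B} {J : Set B} (hJ : ∀ b ∈ J, b ∈ U) :
    (Subgroup.closure (sgen cs U '' J)).map (spc cs U).subtype =
      Subgroup.closure (cs.simple '' J) := by
  rw [MonoidHom.map_closure]
  congr 1
  ext x
  constructor
  · rintro ⟨_, ⟨b, hb, rfl⟩, rfl⟩
    exact ⟨b, hb, (sgen_val cs (hJ b hb)).symm⟩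
  · rintro ⟨b, hb, rfl⟩
    exact ⟨_, ⟨b, hb, rfl⟩, sgen_val cs (hJ b hb)⟩

theorem mem_clos {U : Finset B} {J : Set B} (hJ : ∀ b ∈ J, b ∈ U) {u : spc cs U}
    (hu : u ∈ Subgroup.closure (sgen cs U '' J)) :
    (u : W) ∈ Subgroup.closure (cs.simple '' J) := by
  rw [← map_clos cs hJ]
  exact ⟨u, hu, rfl⟩

/-- the datum of a special subgroup -/
noncomputable def cdat (U : Finset B) : CDat B (spc cs U) where
  U := U
  s := sgen cs U
  l x := cs.length (x : W)
  one := by
    rw [Subgroup.coe_one, cs.length_one]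
  ss b hb := by
    apply Subtype.ext
    rw [Subgroup.coe_mul, sgen_val cs hb, Subgroup.coe_one, cs.simple_mul_simple_self]
  step x b hb := by
    rw [Subgroup.coe_mul, sgen_val cs hb]
    exact cs.length_mul_simple _ _
  fin n := by
    have h1 : {x : spc cs U | cs.length (x : W) ≤ n} =
        (fun x : spc cs U => (x : W)) ⁻¹' {w : W | cs.length w ≤ n} := rfl
    rw [h1]
    exact (fin_len cs n).preimage Subtype.val_injective.injOn
  gen := by
    rw [eq_top_iff]
    intro x _
    have h1 := map_clos cs (U := U) (J := (U : Set B)) (fun b hb => hb)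
    have h2 : (x : W) ∈ (Subgroup.closure (sgen cs U '' (U : Set B))).map
        (spc cs U).subtype := by
      rw [h1]
      exact x.2
    obtain ⟨y, hy, hyx⟩ := h2
    have : y = x := Subtype.ext hyx
    rw [← this]
    exact hy
  down x u hu h1 := by
    have h2 := mem_clos cs (J := {b | b ∈ U ∧ cs.length ((x * sgen cs U b : spc cs U) : W) <
      cs.length (x : W)}) (fun b hb => hb.1) hu
    have h3 : (u : W) ∈ Subgroup.closure (cs.simple '' {i | cs.IsRightDescent (x : W) i}) := by
      apply Subgroup.closure_mono _ h2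
      apply Set.image_mono
      rintro b ⟨hb, hb2⟩
      rw [Subgroup.coe_mul, sgen_val cs hb] at hb2
      exact hb2
    have h4 := down_len cs (x : W) (u : W) h3
    have h5 : cs.length (u : W) ≠ 0 := by
      intro h6
      rw [cs.length_eq_zero_iff] at h6
      exact h1 (Subtype.ext h6)
    rw [Subgroup.coe_mul]
    omega
  up x u hu h1 := by
    have h2 := mem_clos cs (J := {b | b ∈ U ∧ cs.length (x : W) <
      cs.length ((x * sgen cs U b : spc cs U) : W)}) (fun b hb => hb.1) hu
    have h4 := up_len cs (x : W) (u : W) _ (by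
      rintro b ⟨hb, hb2⟩
      rw [Subgroup.coe_mul, sgen_val cs hb] at hb2
      unfold CoxeterSystem.IsRightDescent
      omega) h2
    have h5 : cs.length (u : W) ≠ 0 := by
      intro h6
      rw [cs.length_eq_zero_iff] at h6
      exact h1 (Subtype.ext h6)
    rw [Subgroup.coe_mul, h4]
    omega

/-- the nerve -/
def nrv : Set (Finset B) :=
  {T | ((Subgroup.closure (cs.simple '' (T : Set B)) : Subgroup W) : Set W).Finite}

theorem nrv_cx : IsCx (nrv cs) := by
  intro T hT U hU
  exact Set.Finite.subset hT (Subgroup.closure_mono (Set.image_mono (by exact_mod_cast hU)))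

theorem sph_iff (U T : Finset B) : (cdat cs U).Sph T ↔ T ∈ rs (nrv cs) U := by
  unfold CDat.Sph rs nrv
  constructor
  · rintro ⟨h1, h2⟩
    refine ⟨?_, h1⟩
    have h3 : ((Subgroup.closure (cs.simple '' (T : Set B)) : Subgroup W) : Set W) =
        (fun x : spc cs U => (x : W)) '' ((cdat cs U).W T : Set (spc cs U)) := by
      rw [← map_clos cs (U := U) (J := (T : Set B)) (fun b hb => h1 hb)]
      rfl
    show ((Subgroup.closure (cs.simple '' (T : Set B)) : Subgroup W) : Set W).Finite
    rw [h3]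
    exact h2.image _
  · rintro ⟨h2, h1⟩
    refine ⟨h1, ?_⟩
    have h3 : ((Subgroup.closure (cs.simple '' (T : Set B)) : Subgroup W) : Set W) =
        (fun x : spc cs U => (x : W)) '' ((cdat cs U).W T : Set (spc cs U)) := by
      rw [← map_clos cs (U := U) (J := (T : Set B)) (fun b hb => h1 hb)]
      rfl
    have h2' : ((Subgroup.closure (cs.simple '' (T : Set B)) : Subgroup W) : Set W).Finite := h2
    rw [h3] at h2'
    exact Set.Finite.of_finite_image h2' Subtype.val_injective.injOn

variable (Γ : Subgroup W)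

/-- restriction to a special subgroup -/
def jr (U : Finset B) : (spc cs U).subgroupOf Γ →* spc cs U :=
  (Γ.subtype.comp ((spc cs U).subgroupOf Γ).subtype).codRestrict (spc cs U) (fun x => x.2)

theorem jr_inj (U : Finset B) : Function.Injective (jr cs Γ U) := by
  intro x y h
  apply Subtype.ext
  apply Subtype.ext
  exact congrArg (fun z : spc cs U => (z : W)) h

theorem jr_range (U : Finset B) : (jr cs Γ U).range = Γ.subgroupOf (spc cs U) := by
  ext x
  constructor
  · rintro ⟨y, rfl⟩
    exact y.1.2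
  · intro hx
    exact ⟨⟨⟨x, hx⟩, x.2⟩, rfl⟩

theorem tf_sub {Γ : Subgroup W} (hΓ : ∀ γ ∈ Γ, IsOfFinOrder γ → γ = 1) (S : Subgroup Γ) :
    ∀ δ : S, IsOfFinOrder δ → δ = 1 := by
  intro δ hδ
  have h1 : IsOfFinOrder ((δ : Γ) : W) := by
    have h2 : IsOfFinOrder (δ : Γ) := Submonoid.isOfFinOrder_coe.mpr hδ
    exact Submonoid.isOfFinOrder_coe.mpr h2
  have h3 := hΓ _ (δ : Γ).2 h1
  exact Subtype.ext (Subtype.ext h3)

/-- rational direction for Coxeter groups -/
theorem cox_rat [Γ.FiniteIndex] (hΓ : ∀ γ ∈ Γ, IsOfFinOrder γ → γ = 1)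
    (H : ∀ n, 3 ≤ n → ∀ A : Rep.{0} ℚ Γ, Subsingleton (groupCohomology A n)) :
    Pc (nrv cs) := by
  refine ⟨nrv_cx cs, fun U n hn => ?_⟩
  obtain ⟨m, rfl⟩ : ∃ m, n = m + 1 := ⟨n - 1, by omega⟩
  have hfin : Finite (spc cs U ⧸ (jr cs Γ U).range) := by
    rw [jr_range]
    infer_instance
  intro g hg
  obtain ⟨h, hh⟩ := (cdat cs U).ratl (jr_inj cs Γ U) (tf_sub hΓ _) m (by
      intro A
      have i := groupCohomology.coindIso A (m + 1)
      have h1 := H (m + 1) hn (Rep.coind ((spc cs U).subgroupOf Γ).subtype A)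
      have h2 := ModuleCat.isZero_iff_subsingleton.mpr h1
      exact ModuleCat.isZero_iff_subsingleton.mp (i.isZero_iff.mp h2)) g (by
      intro T hT hc
      exact hg T ((sph_iff cs U T).mp hT) hc)
  exact ⟨h, fun T hT hc => hh T ((sph_iff cs U T).mpr hT) hc⟩

/-- the inclusion in the whole group -/
def ji : Γ →* spc cs Finset.univ :=
  Γ.subtype.codRestrict (spc cs Finset.univ) (fun x => by
    unfold spc
    rw [Finset.coe_univ, Set.image_univ, cs.subgroup_closure_range_simple]
    trivial)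

theorem ji_inj : Function.Injective (ji cs Γ) := by
  intro x y h
  apply Subtype.ext
  exact congrArg (fun z : spc cs Finset.univ => (z : W)) h

theorem ji_range : (ji cs Γ).range = Γ.subgroupOf (spc cs Finset.univ) := by
  ext x
  constructor
  · rintro ⟨y, rfl⟩
    exact y.2
  · intro hx
    exact ⟨⟨x, hx⟩, rfl⟩

/-- integral direction for Coxeter groups -/
theorem cox_int [Γ.FiniteIndex] (hΓ : ∀ γ ∈ Γ, IsOfFinOrder γ → γ = 1) (h : Pc (nrv cs))
    (n : ℕ) (hn : 4 ≤ n) (A : Rep.{0} ℤ Γ) : Subsingleton (groupCohomology A n) := by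
  have hfin : Finite (spc cs Finset.univ ⧸ (ji cs Γ).range) := by
    rw [ji_range]
    infer_instance
  have tf : ∀ δ : Γ, IsOfFinOrder δ → δ = 1 := by
    intro δ hδ
    exact Subtype.ext (hΓ _ δ.2 (Submonoid.isOfFinOrder_coe.mpr hδ))
  apply (cdat cs Finset.univ).int_dir (ji_inj cs Γ) tf 4 _ (Fintype.card B + 1) n hn (by omega)
    (by omega) A
  intro ι n hn x
  have h1 := OV_free (MAINo h ((cdat cs Finset.univ).ot x) n hn) ι
  have h2 : {T | (cdat cs Finset.univ).Sph T ∧ T ⊆ (cdat cs Finset.univ).ot x} =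
      rs (nrv cs) ((cdat cs Finset.univ).ot x) := by
    ext T
    constructor
    · rintro ⟨h3, h4⟩
      exact ⟨((sph_iff cs _ T).mp h3).1, h4⟩
    · rintro ⟨h3, h4⟩
      exact ⟨(sph_iff cs _ T).mpr ⟨h3, Finset.subset_univ _⟩, h4⟩
  rw [h2]
  exact h1

end Cox957

/-- MAIN THEOREM -/
theorem Cox957.final {B W : Type} [Finite B] {M : CoxeterMatrix B} [Group W]
    (cs : CoxeterSystem M W) (Γ : Subgroup W) [Γ.FiniteIndex]
    (hΓ : ∀ γ ∈ Γ, IsOfFinOrder γ → γ = 1)
    (H : ∀ n, 3 ≤ n → ∀ A : Rep.{0} ℚ Γ, Subsingleton (groupCohomology A n)) :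
    ∀ n, 4 ≤ n → ∀ A : Rep.{0} ℤ Γ, Subsingleton (groupCohomology A n) := by
  classical
  have : Fintype B := Fintype.ofFinite B
  obtain ⟨r, ⟨f⟩⟩ := Finite.exists_equiv_fin B
  let _ : LinearOrder B := LinearOrder.lift' f f.injective
  intro n hn A
  exact Cox957.cox_int cs Γ hΓ (Cox957.cox_rat cs Γ hΓ H) n hn A
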