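import Mathlib

set_option autoImplicit false

/-! Oriented simplicial (co)chains as functions on finite sets. -/

namespace Cox957

variable {B : Type} [LinearOrder B]

/-- the sign of `t` in `T` -/
def sg (t : B) (T : Finset B) : ℤ := (-1) ^ (T.filter (· < t)).card

theorem sg_mul_self (t : B) (T : Finset B) : sg t T * sg t T = 1 := by
  unfold sg
  rw [← pow_add, ← two_mul, pow_mul]
  simp

theorem sg_insert_self (t : B) (T : Finset B) : sg t (insert t T) = sg t T := by
  unfold sg
  rw [Finset.filter_insert, if_neg (lt_irrefl t)]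

theorem sg_erase_self (t : B) (T : Finset B) : sg t (T.erase t) = sg t T := by
  unfold sg
  congr 2
  ext x
  simp only [Finset.mem_filter, Finset.mem_erase]
  constructor
  · rintro ⟨⟨_, h⟩, h2⟩
    exact ⟨h, h2⟩
  · rintro ⟨h, h2⟩
    exact ⟨⟨ne_of_lt h2, h⟩, h2⟩

theorem sg_insert_lt {t u : B} {T : Finset B} (hu : u ∉ T) (h : u < t) :
    sg t (insert u T) = - sg t T := by
  unfold sg
  rw [Finset.filter_insert, if_pos h, Finset.card_insert_of_notMem, pow_succ]
  · ring
  · simp [hu]

theorem sg_insert_gt {t u : B} {T : Finset B} (h : t < u) :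
    sg t (insert u T) = sg t T := by
  unfold sg
  rw [Finset.filter_insert, if_neg (not_lt.mpr h.le)]

theorem sg_anti {t u : B} {T : Finset B} (ht : t ∉ T) (hu : u ∉ T) (htu : t ≠ u) :
    sg t T * sg u (insert t T) = -(sg u T * sg t (insert u T)) := by
  rcases lt_or_gt_of_ne htu with h | h
  · rw [sg_insert_lt ht h, sg_insert_gt h]
    ring
  · rw [sg_insert_gt h, sg_insert_lt hu h]
    ring

theorem sum_anti {ι A : Type} [AddCommGroup A] (S : Finset ι) (F : ι → ι → A)
    (h : ∀ t u, F t u = - F u t) (h0 : ∀ t, F t t = 0) :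
    ∑ t ∈ S, ∑ u ∈ S, F t u = 0 := by
  classical
  rw [← Finset.sum_product']
  apply Finset.sum_involution (fun p _ => (p.2, p.1))
  · rintro ⟨a, b⟩ _
    rw [h a b]
    simp
  · rintro ⟨a, b⟩ _ hne heq
    simp only [Prod.mk.injEq] at heq
    obtain ⟨rfl, _⟩ := heq
    exact hne (h0 _)
  · rintro ⟨a, b⟩ hab
    rw [Finset.mem_product] at hab ⊢
    exact ⟨hab.2, hab.1⟩
  · rintro ⟨a, b⟩ _
    rfl

section

variable {A : Type} [AddCommGroup A]

/-- oriented coboundary -/
def dlt (a : Finset B → A) (T : Finset B) : A := ∑ t ∈ T, sg t T • a (T.erase t)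

theorem dlt_congr {a b : Finset B → A} {T : Finset B} (h : ∀ t ∈ T, a (T.erase t) = b (T.erase t)) :
    dlt a T = dlt b T := by
  unfold dlt
  apply Finset.sum_congr rfl
  intro t ht
  rw [h t ht]

theorem dlt_add (a b : Finset B → A) (T : Finset B) :
    dlt (fun T => a T + b T) T = dlt a T + dlt b T := by
  unfold dlt
  rw [← Finset.sum_add_distrib]
  apply Finset.sum_congr rfl
  intro t _
  rw [smul_add]

theorem dlt_sub (a b : Finset B → A) (T : Finset B) :
    dlt (fun T => a T - b T) T = dlt a T - dlt b T := by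
  unfold dlt
  rw [← Finset.sum_sub_distrib]
  apply Finset.sum_congr rfl
  intro t _
  rw [smul_sub]

theorem dlt_zero (T : Finset B) : dlt (fun _ => (0 : A)) T = 0 := by
  unfold dlt
  simp

theorem dlt_map {A' : Type} [AddCommGroup A'] (φ : A →+ A') (a : Finset B → A) (T : Finset B) :
    dlt (fun T => φ (a T)) T = φ (dlt a T) := by
  unfold dlt
  rw [map_sum]
  apply Finset.sum_congr rfl
  intro t _
  rw [map_zsmul]

theorem dlt_dlt (a : Finset B → A) (T : Finset B) : dlt (dlt a) T = 0 := by
  unfold dlt
  have h1 : ∀ t ∈ T, sg t T • ∑ u ∈ T.erase t, sg u (T.erase t) • a ((T.erase t).erase u) =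
      ∑ u ∈ T, (if t ∈ T ∧ u ∈ T ∧ t ≠ u then (sg t T * sg u (T.erase t)) •
        a ((T.erase t).erase u) else 0) := by
    intro t ht
    rw [Finset.smul_sum, ← Finset.sum_erase_add T _ ht]
    rw [if_neg (by simp), add_zero]
    apply Finset.sum_congr rfl
    intro u hu
    rw [Finset.mem_erase] at hu
    rw [if_pos ⟨ht, hu.2, hu.1.symm⟩, smul_smul]
  rw [Finset.sum_congr rfl h1]
  apply sum_anti
  · intro t u
    by_cases h : t ∈ T ∧ u ∈ T ∧ t ≠ u
    · rw [if_pos h, if_pos ⟨h.2.1, h.1, h.2.2.symm⟩, Finset.erase_right_comm, ← neg_smul]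
      congr 1
      obtain ⟨h1, h2, h3⟩ := h
      have e1 : T.erase t = insert u ((T.erase t).erase u) := by
        rw [Finset.insert_erase]
        exact Finset.mem_erase.mpr ⟨h3.symm, h2⟩
      have e2 : T.erase u = insert t ((T.erase t).erase u) := by
        rw [Finset.erase_right_comm, Finset.insert_erase]
        exact Finset.mem_erase.mpr ⟨h3, h1⟩
      have key := sg_anti (t := t) (u := u) (T := (T.erase t).erase u) (by simp) (by simp) h3
      rw [← e1, ← e2] at key
      rw [← sg_erase_self t T, ← sg_erase_self u T]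
      have k1 : sg u (T.erase t) = sg u ((T.erase t).erase u) := (sg_erase_self u _).symm
      have k2 : sg t (T.erase u) = sg t ((T.erase t).erase u) := by
        rw [Finset.erase_right_comm]
        exact (sg_erase_self t _).symm
      have k3 : sg t (T.erase t) = sg t (insert u ((T.erase t).erase u)) := by rw [← e1]
      have k4 : sg u (T.erase u) = sg u (insert t ((T.erase t).erase u)) := by rw [← e2]
      have k5 := sg_mul_self t (T.erase t)
      have k6 := sg_mul_self u (T.erase u)
      rw [sg_erase_self t T] at k5 ⊢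
      rw [sg_erase_self u T] at k6 ⊢
      have k7 : sg u T = sg u (T.erase u) := (sg_erase_self u T).symm
      have k8 : sg t T = sg t (T.erase t) := (sg_erase_self t T).symm
      have k9 := sg_mul_self t ((T.erase t).erase u)
      have k10 := sg_mul_self u ((T.erase t).erase u)
      rw [k1, k2]
      rw [← k7, ← k8] at key
      linear_combination key
    · rw [if_neg h, if_neg (by tauto), neg_zero]
  · intro t
    rw [if_neg (by simp)]

variable [Fintype B]

/-- oriented boundary -/
def bd (a : Finset B → A) (T : Finset B) : A := ∑ t ∈ Tᶜ, sg t T • a (insert t T)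

/-- wedge with `b` -/
def wg (b : B) (a : Finset B → A) (T : Finset B) : A :=
  if b ∈ T then sg b T • a (T.erase b) else 0

theorem bd_bd (a : Finset B → A) (T : Finset B) : bd (bd a) T = 0 := by
  unfold bd
  have h1 : ∀ t ∈ Tᶜ, sg t T • ∑ u ∈ (insert t T)ᶜ, sg u (insert t T) • a (insert u (insert t T)) =
      ∑ u ∈ Tᶜ, (if t ∈ Tᶜ ∧ u ∈ Tᶜ ∧ t ≠ u then (sg t T * sg u (insert t T)) •
        a (insert u (insert t T)) else 0) := by
    intro t ht
    have e : (insert t T)ᶜ = (Tᶜ).erase t := by
      ext x
      simp only [Finset.mem_compl, Finset.mem_insert, Finset.mem_erase, not_or]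
    rw [e, Finset.smul_sum, ← Finset.sum_erase_add (Tᶜ) _ ht]
    rw [if_neg (by simp), add_zero]
    apply Finset.sum_congr rfl
    intro u hu
    rw [Finset.mem_erase] at hu
    rw [if_pos ⟨ht, hu.2, hu.1.symm⟩, smul_smul]
  rw [Finset.sum_congr rfl h1]
  apply sum_anti
  · intro t u
    by_cases h : t ∈ Tᶜ ∧ u ∈ Tᶜ ∧ t ≠ u
    · rw [if_pos h, if_pos ⟨h.2.1, h.1, h.2.2.symm⟩, Finset.insert_comm, ← neg_smul]
      congr 1
      obtain ⟨h1, h2, h3⟩ := h
      rw [Finset.mem_compl] at h1 h2
      exact sg_anti h1 h2 h3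
    · rw [if_neg h, if_neg (by tauto), neg_zero]
  · intro t
    rw [if_neg (by simp)]

theorem bd_wg (b : B) (a : Finset B → A) (T : Finset B) :
    bd (wg b a) T + wg b (bd a) T = a T := by
  by_cases hb : b ∈ T
  · have h1 : wg b (bd a) T = sg b T • bd a (T.erase b) := if_pos hb
    rw [h1]
    unfold bd
    have e : (T.erase b)ᶜ = insert b Tᶜ := by
      ext x
      simp only [Finset.mem_compl, Finset.mem_erase, Finset.mem_insert, not_and_or, not_not]
    rw [e, Finset.sum_insert (by simpa using hb), smul_add, sg_erase_self, smul_smul, sg_mul_self,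
      one_smul, Finset.insert_erase hb]
    have h2 : ∑ t ∈ Tᶜ, sg t T • wg b a (insert t T) =
        - (sg b T • ∑ t ∈ Tᶜ, sg t (T.erase b) • a (insert t (T.erase b))) := by
      rw [Finset.smul_sum, ← Finset.sum_neg_distrib]
      apply Finset.sum_congr rfl
      intro t ht
      rw [Finset.mem_compl] at ht
      have htb : t ≠ b := fun h => ht (h ▸ hb)
      unfold wg
      rw [if_pos (Finset.mem_insert_of_mem hb), smul_smul, smul_smul, ← neg_smul,
        Finset.erase_insert_of_ne htb]
      congr 1
      have key := sg_anti (t := t) (u := b) (T := T.erase b)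
        (fun h => ht (Finset.mem_of_mem_erase h)) (by simp) htb
      rw [Finset.insert_erase hb, sg_erase_self] at key
      have k1 := sg_mul_self t (T.erase b)
      have k2 := sg_mul_self b (insert t T)
      have k3 : sg b (insert t T) = sg b (insert t (T.erase b)) := by
        rw [← sg_erase_self b (insert t T), Finset.erase_insert_of_ne htb]
      have k4 := sg_mul_self b T
      rw [k3] at k2 ⊢
      -- key : s * p = -(q * r); want r * p = -(q * s)
      linear_combination (sg t T * sg t (T.erase b)) * key - (sg t T * sg b (insert t (T.erase b))) * k1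
        - (sg b T * sg t (T.erase b)) * (sg_mul_self t T)
    rw [h2]
    abel
  · have h1 : wg b (bd a) T = 0 := if_neg hb
    rw [h1, add_zero]
    unfold bd
    rw [Finset.sum_eq_single_of_mem b (by simpa using hb)]
    · unfold wg
      rw [if_pos (Finset.mem_insert_self b T), smul_smul, sg_insert_self, sg_mul_self, one_smul,
        Finset.erase_insert hb]
    · intro t ht htb
      unfold wg
      rw [if_neg, smul_zero]
      rw [Finset.mem_insert, not_or]
      exact ⟨htb.symm, hb⟩

theorem pair_bd {k : Type} [CommRing k] [Module k A] (a : Finset B → k) (g : Finset B → A) :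
    ∑ T, bd a T • g T = ∑ T, a T • dlt g T := by
  unfold bd dlt
  simp only [Finset.sum_smul, Finset.smul_sum]
  rw [Finset.sum_sigma', Finset.sum_sigma']
  refine Finset.sum_bij' (fun p _ => ⟨insert p.2 p.1, p.2⟩) (fun p _ => ⟨p.1.erase p.2, p.2⟩)
    ?_ ?_ ?_ ?_ ?_
  · rintro ⟨T, t⟩ h
    simp
  · rintro ⟨T, t⟩ h
    simp
  · rintro ⟨T, t⟩ h
    simp only [Finset.mem_sigma, Finset.mem_univ, true_and, Finset.mem_compl] at h
    simp only [Finset.erase_insert h]
  · rintro ⟨T, t⟩ h
    simp only [Finset.mem_sigma, Finset.mem_univ, true_and] at h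
    simp only [Finset.insert_erase h]
  · rintro ⟨T, t⟩ h
    simp only [Finset.mem_sigma, Finset.mem_univ, true_and, Finset.mem_compl] at h
    simp only [Finset.erase_insert h, sg_insert_self]
    rw [smul_comm, smul_assoc]
end

end Cox957
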