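import Pool.Agent.helper957_gc.W2

set_option autoImplicit false
set_option linter.unusedSectionVars false

/-! The chain complex of a Coxeter type datum. -/

namespace Cox957

/-- A group with generators of order two and a length function, as satisfied by the special
subgroups of Coxeter groups. -/
structure CDat (B G : Type) [Group G] where
  /-- the active indices -/
  U : Finset B
  /-- the generators -/
  s : B → G
  /-- the length -/
  l : G → ℕ
  one : l 1 = 0
  ss : ∀ b ∈ U, s b * s b = 1
  step : ∀ x, ∀ b ∈ U, l (x * s b) = l x + 1 ∨ l (x * s b) + 1 = l x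
  fin : ∀ n, {x | l x ≤ n}.Finite
  gen : Subgroup.closure (s '' (U : Set B)) = ⊤
  down : ∀ x, ∀ u ∈ Subgroup.closure (s '' {b | b ∈ U ∧ l (x * s b) < l x}), u ≠ 1 →
    l (x * u) < l x
  up : ∀ x, ∀ u ∈ Subgroup.closure (s '' {b | b ∈ U ∧ l x < l (x * s b)}), u ≠ 1 →
    l x < l (x * u)

variable {B G : Type} [LinearOrder B] [Fintype B] [Group G] (X : CDat B G)

namespace CDat

/-- special subgroups -/
def W (T : Finset B) : Subgroup G := Subgroup.closure (X.s '' (T : Set B))

/-- spherical subsets -/
def Sph (T : Finset B) : Prop := T ⊆ X.U ∧ (X.W T : Set G).Finite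

/-- descents -/
def dn (x : G) : Finset B := X.U.filter (fun b => X.l (x * X.s b) < X.l x)

/-- ascents -/
def ot (x : G) : Finset B := X.U.filter (fun b => X.l x < X.l (x * X.s b))

/-- the sign -/
def chi (x : G) : ℤ := (-1) ^ X.l x

theorem chi_one : X.chi 1 = 1 := by
  unfold chi; rw [X.one]; rfl

theorem chi_sq (x : G) : X.chi x * X.chi x = 1 := by
  unfold chi
  rw [← pow_add, ← two_mul, pow_mul]
  simp

theorem chi_s (x : G) {b : B} (hb : b ∈ X.U) : X.chi (x * X.s b) = - X.chi x := by
  unfold chi
  rcases X.step x b hb with h | h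
  · rw [h, pow_succ]; ring
  · rw [← h, pow_succ]; ring

theorem chi_mul (x y : G) : X.chi (x * y) = X.chi x * X.chi y := by
  have hy : y ∈ Subgroup.closure (X.s '' (X.U : Set B)) := by
    rw [X.gen]; trivial
  induction hy using Subgroup.closure_induction generalizing x with
  | mem z hz =>
    obtain ⟨b, hb, rfl⟩ := hz
    rw [X.chi_s x hb]
    have := X.chi_s 1 hb
    rw [one_mul, X.chi_one] at this
    rw [this]
    ring
  | one => rw [mul_one, X.chi_one, mul_one]
  | mul u v _ _ hu hv => rw [← mul_assoc, hv, hu, hv u, mul_assoc]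
  | inv u _ hu =>
    have h1 := hu (x * u⁻¹)
    rw [inv_mul_cancel_right] at h1
    have h2 := hu u⁻¹
    rw [inv_mul_cancel, X.chi_one] at h2
    have h3 := X.chi_sq u
    rw [h1]
    calc X.chi (x * u⁻¹) = X.chi (x * u⁻¹) * (X.chi u⁻¹ * X.chi u) := by rw [← h2, mul_one]
      _ = _ := by ring

theorem W_mono {T T' : Finset B} (h : T ⊆ T') : X.W T ≤ X.W T' :=
  Subgroup.closure_mono (Set.image_mono (by exact_mod_cast h))

theorem sph_mono {T T' : Finset B} (h : T ⊆ T') (h' : X.Sph T') : X.Sph T :=
  ⟨h.trans h'.1, h'.2.subset (X.W_mono h)⟩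

theorem down' {x u : G} {T : Finset B} (hT : T ⊆ X.dn x) (hu : u ∈ X.W T) (h1 : u ≠ 1) :
    X.l (x * u) < X.l x := by
  apply X.down x u _ h1
  apply Subgroup.closure_mono _ hu
  apply Set.image_mono
  intro b hb
  exact Finset.mem_filter.mp (hT hb)

theorem up' {x u : G} {T : Finset B} (hT : T ⊆ X.ot x) (hu : u ∈ X.W T) (h1 : u ≠ 1) :
    X.l x < X.l (x * u) := by
  apply X.up x u _ h1
  apply Subgroup.closure_mono _ hu
  apply Set.image_mono
  intro b hb
  exact Finset.mem_filter.mp (hT hb)

theorem dn_sph {x : G} {T : Finset B} (hT : T ⊆ X.dn x) : X.Sph T := by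
  refine ⟨hT.trans (Finset.filter_subset _ _), ?_⟩
  have h1 : ((fun y => x⁻¹ * y) '' {y | X.l y ≤ X.l x}).Finite := (X.fin _).image _
  apply h1.subset
  intro u hu
  refine ⟨x * u, ?_, by simp⟩
  by_cases h : u = 1
  · rw [h, mul_one]
    exact le_refl (X.l x)
  · exact (X.down' hT hu h).le

theorem mem_ot_or_dn (x : G) {b : B} (hb : b ∈ X.U) : b ∈ X.ot x ∨ b ∈ X.dn x := by
  unfold ot dn
  rw [Finset.mem_filter, Finset.mem_filter]
  rcases X.step x b hb with h | h
  · left; exact ⟨hb, by omega⟩
  · right; exact ⟨hb, by omega⟩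

theorem dn_empty {x : G} (h : X.dn x = ∅) : x = 1 := by
  by_contra hx
  have h1 : X.U ⊆ X.ot x := by
    intro b hb
    rcases X.mem_ot_or_dn x hb with h2 | h2
    · exact h2
    · rw [h] at h2; simp at h2
  have h2 := X.up' (x := x) (u := x⁻¹) (T := X.U) h1 (by unfold W; rw [X.gen]; trivial)
    (by simpa using hx)
  rw [mul_inv_cancel, X.one] at h2
  omega

theorem exists_min (y : G) {T : Finset B} (hT : T ⊆ X.U) :
    ∃ x, x⁻¹ * y ∈ X.W T ∧ T ⊆ X.ot x := by
  classical
  have hex : ∃ n, ∃ v ∈ X.W T, X.l (y * v) = n := ⟨_, 1, Subgroup.one_mem _, rfl⟩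
  obtain ⟨v, hv, hvl⟩ := Nat.find_spec hex
  refine ⟨y * v, ?_, ?_⟩
  · rw [mul_inv_rev, inv_mul_cancel_right]
    exact Subgroup.inv_mem _ hv
  · intro t ht
    rcases X.mem_ot_or_dn (y * v) (hT ht) with h | h
    · exact h
    · exfalso
      have h1 := (Finset.mem_filter.mp h).2
      have h2 : Nat.find hex ≤ X.l (y * v * X.s t) := by
        apply Nat.find_min' hex
        exact ⟨v * X.s t, Subgroup.mul_mem _ hv (Subgroup.subset_closure ⟨t, ht, rfl⟩),
          by rw [mul_assoc]⟩
      omega

theorem min_unique {x x' : G} {T : Finset B} (h : T ⊆ X.ot x) (h' : T ⊆ X.ot x')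
    (hx : x⁻¹ * x' ∈ X.W T) : x = x' := by
  by_contra hne
  have h1 : x⁻¹ * x' ≠ 1 := by
    intro h2
    rw [inv_mul_eq_one] at h2
    exact hne h2
  have h2 := X.up' h hx h1
  rw [mul_inv_cancel_left] at h2
  have h3 : x'⁻¹ * x ∈ X.W T := by
    have := Subgroup.inv_mem _ hx
    rwa [mul_inv_rev, inv_inv] at this
  have h4 : x'⁻¹ * x ≠ 1 := by
    intro h5
    rw [inv_mul_eq_one] at h5
    exact hne h5.symm
  have h5 := X.up' h' h3 h4
  rw [mul_inv_cancel_left] at h5
  omega

section chain

variable (k : Type) [CommRing k]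

/-- chains -/
def C (n : ℕ) : Submodule k (G → Finset B → k) where
  carrier := {a | (∀ x T, a x T ≠ 0 → T.card = n ∧ X.Sph T) ∧
    (∀ x T, ∀ t ∈ T, a (x * X.s t) T = - a x T) ∧ {x | a x ≠ 0}.Finite}
  add_mem' := by
    rintro a b ⟨h1, h2, h3⟩ ⟨h1', h2', h3'⟩
    refine ⟨?_, ?_, ?_⟩
    · intro x T h
      by_cases ha : a x T = 0
      · have : b x T ≠ 0 := by
          intro hb
          apply h
          simp [ha, hb]
        exact h1' x T this
      · exact h1 x T ha
    · intro x T t ht
      simp only [Pi.add_apply]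
      rw [h2 x T t ht, h2' x T t ht]
      ring
    · apply (h3.union h3').subset
      intro x hx
      by_contra hn
      simp only [Set.mem_union, Set.mem_ofPred_eq, not_or, not_not] at hn
      apply hx
      simp [hn.1, hn.2]
  zero_mem' := ⟨fun x T h => absurd rfl h, fun x T t ht => by simp, by simp⟩
  smul_mem' := by
    rintro c a ⟨h1, h2, h3⟩
    refine ⟨?_, ?_, ?_⟩
    · intro x T h
      apply h1 x T
      intro ha
      apply h
      simp [ha]
    · intro x T t ht
      simp only [Pi.smul_apply]
      rw [h2 x T t ht, smul_neg]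
    · apply h3.subset
      intro x hx hn
      apply hx
      simp [hn]

variable {k}

theorem anti {n : ℕ} {a : G → Finset B → k} (ha : a ∈ X.C k n) (x : G) {T : Finset B} {u : G}
    (hu : u ∈ X.W T) : a (x * u) T = (X.chi u : k) * a x T := by
  by_cases hT : X.Sph T
  · unfold W at hu
    induction hu using Subgroup.closure_induction generalizing x with
    | mem z hz =>
      obtain ⟨b, hb, rfl⟩ := hz
      rw [ha.2.1 x T b hb]
      have := X.chi_s 1 (hT.1 hb)
      rw [one_mul, X.chi_one] at this
      rw [this]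
      push_cast
      ring
    | one => rw [mul_one, X.chi_one]; simp
    | mul u v _ _ hu hv =>
      rw [← mul_assoc, hv, hu, X.chi_mul]
      push_cast
      ring
    | inv u _ hu =>
      have h1 := hu (x * u⁻¹)
      rw [inv_mul_cancel_right] at h1
      have h2 : X.chi u⁻¹ = X.chi u := by
        have h3 := X.chi_mul u⁻¹ u
        rw [inv_mul_cancel, X.chi_one] at h3
        have h4 := X.chi_sq u
        calc X.chi u⁻¹ = X.chi u⁻¹ * (X.chi u * X.chi u) := by rw [h4, mul_one]
          _ = (X.chi u⁻¹ * X.chi u) * X.chi u := by ring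
          _ = _ := by rw [← h3, one_mul]
      rw [h1, h2, ← mul_assoc]
      have h5 := X.chi_sq u
      have h6 : (X.chi u : k) * (X.chi u : k) = 1 := by exact_mod_cast congrArg (Int.cast : ℤ → k) h5
      rw [h6, one_mul]
  · have h1 : ∀ y, a y T = 0 := by
      intro y
      by_contra h
      exact hT (ha.1 y T h).2
    rw [h1, h1, mul_zero]

open Classical in
/-- the antisymmetrised generator at `x` -/
noncomputable def e (x : G) (T : Finset B) : G → Finset B → k :=
  fun y T' => if T' = T ∧ x⁻¹ * y ∈ X.W T then (X.chi (x⁻¹ * y) : k) else 0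

theorem e_mem {n : ℕ} (x : G) {T : Finset B} (hT : X.Sph T) (hn : T.card = n) :
    (X.e x T : G → Finset B → k) ∈ X.C k n := by
  classical
  refine ⟨?_, ?_, ?_⟩
  · intro y T' h
    unfold e at h
    by_cases h1 : T' = T ∧ x⁻¹ * y ∈ X.W T
    · rw [h1.1]; exact ⟨hn, hT⟩
    · rw [if_neg h1] at h; exact absurd rfl h
  · intro y T' t ht
    unfold e
    by_cases h1 : T' = T
    · subst h1
      have hs : X.s t ∈ X.W T' := Subgroup.subset_closure ⟨t, ht, rfl⟩
      by_cases h2 : x⁻¹ * y ∈ X.W T'
      · rw [if_pos ⟨rfl, by rw [← mul_assoc]; exact Subgroup.mul_mem _ h2 hs⟩, if_pos ⟨rfl, h2⟩,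
          ← mul_assoc, X.chi_s _ (hT.1 ht)]
        push_cast
        ring
      · rw [if_neg, if_neg (by simp [h2]), neg_zero]
        rintro ⟨_, h3⟩
        apply h2
        rw [← mul_assoc] at h3
        exact (Subgroup.mul_mem_cancel_right _ hs).mp h3
    · rw [if_neg (by simp [h1]), if_neg (by simp [h1]), neg_zero]
  · apply (hT.2.image (fun u => x * u)).subset
    intro y hy
    by_contra hn
    apply hy
    funext T'
    unfold e
    rw [if_neg]
    · rfl
    · rintro ⟨_, h⟩
      exact hn ⟨x⁻¹ * y, h, by simp⟩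

theorem e_self (x : G) (T : Finset B) : (X.e x T x T : k) = 1 := by
  unfold e
  rw [if_pos ⟨rfl, by rw [inv_mul_cancel]; exact Subgroup.one_mem _⟩, inv_mul_cancel, X.chi_one]
  simp

theorem e_ne {x y : G} {T T' : Finset B} (h : (X.e x T y T' : k) ≠ 0) :
    T' = T ∧ x⁻¹ * y ∈ X.W T := by
  by_contra hn
  apply h
  unfold e
  rw [if_neg hn]

/-- boundary -/
def bdG (a : G → Finset B → k) : G → Finset B → k := fun x => bd (a x)

theorem bdG_mem {n : ℕ} {a : G → Finset B → k} (ha : a ∈ X.C k (n + 1)) :
    bdG a ∈ X.C k n := by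
  refine ⟨?_, ?_, ?_⟩
  · intro x T h
    unfold bdG bd at h
    obtain ⟨t, ht, h1⟩ := Finset.exists_ne_zero_of_sum_ne_zero h
    have h2 : a x (insert t T) ≠ 0 := by
      intro h3
      rw [h3, smul_zero] at h1
      exact h1 rfl
    obtain ⟨h3, h4⟩ := ha.1 _ _ h2
    rw [Finset.mem_compl] at ht
    rw [Finset.card_insert_of_notMem ht] at h3
    exact ⟨by omega, X.sph_mono (Finset.subset_insert _ _) h4⟩
  · intro x T t ht
    unfold bdG bd
    rw [← Finset.sum_neg_distrib]
    apply Finset.sum_congr rfl
    intro u _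
    rw [ha.2.1 x _ t (Finset.mem_insert_of_mem ht), smul_neg]
  · apply ha.2.2.subset
    intro x hx hn
    apply hx
    unfold bdG bd
    funext T
    rw [hn]
    simp

theorem bdG_add (a b : G → Finset B → k) : bdG (a + b) = bdG a + bdG b := by
  funext x T
  unfold bdG bd
  simp only [Pi.add_apply, smul_add, Finset.sum_add_distrib]

theorem bdG_sub (a b : G → Finset B → k) : bdG (a - b) = bdG a - bdG b := by
  funext x T
  unfold bdG bd
  simp only [Pi.sub_apply, smul_sub, Finset.sum_sub_distrib]

theorem bdG_smul (c : k) (a : G → Finset B → k) : bdG (c • a) = c • bdG a := by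
  funext x T
  unfold bdG bd
  simp only [Pi.smul_apply, Finset.smul_sum]
  apply Finset.sum_congr rfl
  intro t _
  rw [smul_comm]

theorem bdG_bdG (a : G → Finset B → k) : bdG (bdG a) = 0 := by
  funext x T
  exact bd_bd (a x) T

theorem supp_dn {n N : ℕ} {a : G → Finset B → k} (ha : a ∈ X.C k n)
    (hN : ∀ x, a x ≠ 0 → X.l x ≤ N) {x : G} (hx : X.l x = N) {T : Finset B} (h : a x T ≠ 0) :
    T ⊆ X.dn x := by
  intro t ht
  have h1 := ha.2.1 x T t ht
  have h2 : a (x * X.s t) T ≠ 0 := by
    rw [h1]
    exact neg_ne_zero.mpr h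
  have h3 : a (x * X.s t) ≠ 0 := fun h3 => h2 (by rw [h3]; rfl)
  have h4 := hN _ h3
  have h5 := (ha.1 x T h).2.1 ht
  unfold dn
  rw [Finset.mem_filter]
  rcases X.step x t h5 with h6 | h6
  · omega
  · exact ⟨h5, by omega⟩

/-- peeling off the longest elements -/
theorem peel {n : ℕ} (N : ℕ) : ∀ a ∈ X.C k n, bdG a = 0 → (∀ x, a x ≠ 0 → X.l x ≤ N) →
    ∃ b ∈ X.C k (n + 1), ∀ x, (a - bdG b) x ≠ 0 → x = 1 := by
  classical
  induction N with
  | zero =>
    intro a ha hd hN
    refine ⟨0, Submodule.zero_mem _, ?_⟩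
    intro x hx
    have h0 : bdG (0 : G → Finset B → k) = 0 := by
      funext y T
      unfold bdG bd
      simp
    rw [h0, sub_zero] at hx
    have h1 := hN x hx
    apply X.dn_empty
    rw [Finset.eq_empty_iff_forall_notMem]
    intro b hb
    have := (Finset.mem_filter.mp hb).2
    omega
  | succ N ih =>
    intro a ha hd hN
    have hch : ∀ x : G, ∃ c : Finset B → k, (X.l x = N + 1 → ∀ T, bd c T = a x T) ∧
        (∀ T, c T ≠ 0 → X.l x = N + 1 ∧ T.card = n + 1 ∧ T ⊆ X.dn x) := by
      intro x
      by_cases hx : X.l x = N + 1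
      · have hne : (X.dn x).Nonempty := by
          rw [Finset.nonempty_iff_ne_empty]
          intro h
          rw [X.dn_empty h, X.one] at hx
          omega
        obtain ⟨i, hi⟩ := hne
        refine ⟨wg i (a x), ?_, ?_⟩
        · intro _ T
          have h1 := bd_wg i (a x) T
          have h2 : bd (a x) = 0 := congrFun hd x
          rw [h2] at h1
          have h3 : wg i (0 : Finset B → k) T = 0 := by
            unfold wg
            split_ifs
            · simp
            · rfl
          rw [h3, add_zero] at h1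
          exact h1
        · intro T hT
          unfold wg at hT
          by_cases hiT : i ∈ T
          · rw [if_pos hiT] at hT
            have h1 : a x (T.erase i) ≠ 0 := by
              intro h2
              rw [h2, smul_zero] at hT
              exact hT rfl
            have h2 := X.supp_dn ha hN hx h1
            have h3 := (ha.1 _ _ h1).1
            rw [Finset.card_erase_of_mem hiT] at h3
            have h4 : 0 < T.card := Finset.card_pos.mpr ⟨i, hiT⟩
            refine ⟨hx, by omega, ?_⟩
            intro t ht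
            by_cases hti : t = i
            · rw [hti]; exact hi
            · exact h2 (Finset.mem_erase.mpr ⟨hti, ht⟩)
          · rw [if_neg hiT] at hT
            exact absurd rfl hT
      · exact ⟨0, fun h => absurd h hx, fun T hT => absurd rfl hT⟩
    choose c hc1 hc2 using hch
    set L : Finset G := (X.fin (N + 1)).toFinset.filter (fun x => X.l x = N + 1) with hL
    have hLm : ∀ x, x ∈ L ↔ X.l x = N + 1 := by
      intro x
      rw [hL, Finset.mem_filter, Set.Finite.mem_toFinset]
      constructor
      · exact fun h => h.2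
      · exact fun h => ⟨h.le, h⟩
    set b : G → Finset B → k := ∑ x ∈ L, ∑ T : Finset B, c x T • X.e x T with hb
    have hbm : b ∈ X.C k (n + 1) := by
      rw [hb]
      apply Submodule.sum_mem
      intro x _
      apply Submodule.sum_mem
      intro T _
      by_cases h : c x T = 0
      · rw [h, zero_smul]
        exact Submodule.zero_mem _
      · obtain ⟨_, h2, h3⟩ := hc2 x T h
        exact Submodule.smul_mem _ _ (X.e_mem x (X.dn_sph h3) h2)
    have hbv : ∀ y T, b y T = ∑ x ∈ L, c x T * X.e x T y T := by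
      intro y T
      rw [hb]
      simp only [Finset.sum_apply, Pi.smul_apply, smul_eq_mul]
      apply Finset.sum_congr rfl
      intro x _
      rw [Finset.sum_eq_single T]
      · intro T' _ hT'
        have : (X.e x T' y T : k) = 0 := by
          by_contra h
          exact hT' (X.e_ne h).1.symm
        rw [this, mul_zero]
      · intro h
        exact absurd (Finset.mem_univ _) h
    have hkey : ∀ y, N + 1 ≤ X.l y → ∀ x T, c x T ≠ 0 → (X.e x T y T : k) ≠ 0 → x = y := by
      intro y hy x T h1 h2
      obtain ⟨h3, h4, h5⟩ := hc2 x T h1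
      have h6 := (X.e_ne h2).2
      by_contra hne
      have h7 := X.down' h5 h6 (by
        intro h8
        rw [inv_mul_eq_one] at h8
        exact hne h8)
      rw [mul_inv_cancel_left] at h7
      omega
    have hb1 : ∀ y, X.l y = N + 1 → b y = c y := by
      intro y hy
      funext T
      rw [hbv, Finset.sum_eq_single y]
      · rw [X.e_self, mul_one]
      · intro x _ hxy
        by_contra h
        exact hxy (hkey y hy.ge x T (left_ne_zero_of_mul h) (right_ne_zero_of_mul h))
      · intro h
        exact absurd ((hLm y).mpr hy) h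
    have hb2 : ∀ y, N + 1 < X.l y → b y = 0 := by
      intro y hy
      funext T
      rw [hbv]
      apply Finset.sum_eq_zero
      intro x hx
      by_contra h
      have := hkey y hy.le x T (left_ne_zero_of_mul h) (right_ne_zero_of_mul h)
      rw [hLm] at hx
      rw [this] at hx
      omega
    obtain ⟨b', hb', hb'2⟩ := ih (a - bdG b)
      (Submodule.sub_mem _ ha (X.bdG_mem hbm)) (by rw [bdG_sub, hd, bdG_bdG, sub_zero]) (by
        intro x hx
        by_contra hn
        push Not at hn
        apply hx
        rcases Nat.lt_or_ge (N + 1) (X.l x) with h1 | h1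
        · have h2 : a x = 0 := by
            by_contra h3
            have := hN x h3
            omega
          have h3 : bdG b x = 0 := by
            unfold bdG
            rw [hb2 x h1]
            funext T
            unfold bd
            simp
          rw [Pi.sub_apply, h2, h3, sub_zero]
        · have h2 : X.l x = N + 1 := by omega
          have h3 : bdG b x = a x := by
            unfold bdG
            rw [hb1 x h2]
            funext T
            exact hc1 x h2 T
          rw [Pi.sub_apply, h3, sub_self])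
    refine ⟨b + b', Submodule.add_mem _ hbm hb', ?_⟩
    intro x hx
    apply hb'2 x
    rwa [bdG_add, ← sub_sub] at hx

theorem exists_bound {n : ℕ} {a : G → Finset B → k} (ha : a ∈ X.C k n) :
    ∃ N, ∀ x, a x ≠ 0 → X.l x ≤ N := by
  refine ⟨ha.2.2.toFinset.sup X.l, ?_⟩
  intro x hx
  exact Finset.le_sup (ha.2.2.mem_toFinset.mpr hx)

theorem s_ne_one {t : B} (ht : t ∈ X.U) : X.s t ≠ 1 := by
  intro h
  have := X.step 1 t ht
  rw [h, mul_one, X.one] at this
  omega

/-- exactness in positive degrees -/
theorem exact_pos {n : ℕ} {a : G → Finset B → k} (ha : a ∈ X.C k (n + 1)) (hd : bdG a = 0) :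
    ∃ b ∈ X.C k (n + 2), bdG b = a := by
  obtain ⟨N, hN⟩ := X.exists_bound ha
  obtain ⟨b, hb, hb2⟩ := X.peel N a ha hd hN
  refine ⟨b, hb, ?_⟩
  have h1 : a - bdG b ∈ X.C k (n + 1) := Submodule.sub_mem _ ha (X.bdG_mem hb)
  have h2 : a - bdG b = 0 := by
    funext x T
    by_contra h
    have h3 : (a - bdG b) x ≠ 0 := fun h4 => h (by rw [h4]; rfl)
    have h4 := hb2 x h3
    obtain ⟨h5, h6⟩ := h1.1 _ _ h
    have h7 : 0 < T.card := by omega
    obtain ⟨t, ht⟩ := Finset.card_pos.mp h7
    have h8 := h1.2.1 x T t ht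
    have h9 : (a - bdG b) (x * X.s t) ≠ 0 := by
      intro h10
      rw [h10] at h8
      apply h
      have : (0 : k) = - (a - bdG b) x T := h8
      rw [eq_comm, neg_eq_zero] at this
      exact this
    have h10 := hb2 _ h9
    rw [h4, one_mul] at h10
    exact X.s_ne_one (h6.1 ht) h10
  exact (sub_eq_zero.mp h2).symm

end chain

end CDat

end Cox957
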