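import Pool.Agent.helper957_gc.W3

set_option autoImplicit false
set_option linter.unusedSectionVars false

/-! Augmentation, expansion, and a free basis of the chain modules. -/

namespace Cox957

namespace CDat

variable {B G : Type} [LinearOrder B] [Fintype B] [Group G] (X : CDat B G)
variable {k : Type} [CommRing k]

/-- expansion of a chain by the generators at minimal coset representatives -/
theorem expand {n : ℕ} {a : G → Finset B → k} (ha : a ∈ X.C k n) (S : Finset G)
    (hS : ∀ x, a x ≠ 0 → x ∈ S) :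
    a = ∑ x ∈ S, ∑ T ∈ (X.ot x).powerset, a x T • X.e x T := by
  classical
  funext y T0
  simp only [Finset.sum_apply, Pi.smul_apply, smul_eq_mul]
  by_cases hy : a y T0 = 0
  · rw [hy]
    symm
    apply Finset.sum_eq_zero
    intro x _
    apply Finset.sum_eq_zero
    intro T _
    by_contra h
    have h1 := left_ne_zero_of_mul h
    obtain ⟨rfl, h2⟩ := X.e_ne (right_ne_zero_of_mul h)
    have h3 := X.anti ha x h2
    rw [mul_inv_cancel_left, hy] at h3
    have h4 : (X.chi (x⁻¹ * y) : k) * (X.chi (x⁻¹ * y) : k) = 1 := by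
      have := X.chi_sq (x⁻¹ * y)
      exact_mod_cast congrArg (Int.cast : ℤ → k) this
    apply h1
    calc a x T0 = ((X.chi (x⁻¹ * y) : k) * (X.chi (x⁻¹ * y) : k)) * a x T0 := by rw [h4, one_mul]
      _ = (X.chi (x⁻¹ * y) : k) * ((X.chi (x⁻¹ * y) : k) * a x T0) := by ring
      _ = 0 := by rw [← h3, mul_zero]
  · obtain ⟨_, hT⟩ := ha.1 y T0 hy
    obtain ⟨x0, h1, h2⟩ := X.exists_min y hT.1
    have h3 := X.anti ha x0 h1
    rw [mul_inv_cancel_left] at h3
    have h4 : a x0 T0 ≠ 0 := by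
      intro h
      rw [h, mul_zero] at h3
      exact hy h3
    rw [Finset.sum_eq_single x0, Finset.sum_eq_single T0]
    · unfold e
      rw [if_pos ⟨rfl, h1⟩, h3, mul_comm]
    · intro T _ hT'
      have : (X.e x0 T y T0 : k) = 0 := by
        by_contra h
        exact hT' (X.e_ne h).1.symm
      rw [this, mul_zero]
    · intro h
      exact absurd (Finset.mem_powerset.mpr h2) h
    · intro x _ hx
      apply Finset.sum_eq_zero
      intro T hT'
      by_contra h
      obtain ⟨rfl, h5⟩ := X.e_ne (right_ne_zero_of_mul h)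
      apply hx
      apply X.min_unique (Finset.mem_powerset.mp hT') h2
      have h6 := Subgroup.mul_mem _ h5 (Subgroup.inv_mem _ h1)
      rwa [mul_inv_rev, inv_inv, mul_assoc, mul_inv_cancel_left] at h6
    · intro h
      exact absurd (hS x0 (fun h5 => h4 (by rw [h5]; rfl))) h

/-- augmentation -/
noncomputable def aug (a : G → Finset B → k) : k := ∑ᶠ x, a x ∅

theorem aug_supp {n : ℕ} {a : G → Finset B → k} (ha : a ∈ X.C k n) (T : Finset B) :
    (Function.support fun x => a x T).Finite := by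
  apply ha.2.2.subset
  intro x hx h
  apply hx
  show a x T = 0
  rw [h]
  rfl

theorem aug_add {n : ℕ} {a b : G → Finset B → k} (ha : a ∈ X.C k n) (hb : b ∈ X.C k n) :
    aug (a + b) = aug a + aug b :=
  finsum_add_distrib (X.aug_supp ha ∅) (X.aug_supp hb ∅)

theorem aug_smul {n : ℕ} {a : G → Finset B → k} (ha : a ∈ X.C k n) (c : k) :
    aug (c • a) = c • aug a := by
  unfold aug
  simp only [Pi.smul_apply]
  exact (smul_finsum' c (X.aug_supp ha ∅)).symm

theorem aug_bd [NoZeroDivisors k] [CharZero k] {a : G → Finset B → k} (ha : a ∈ X.C k 1) :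
    aug (bdG a) = 0 := by
  unfold aug bdG bd
  rw [finsum_sum_comm]
  · apply Finset.sum_eq_zero
    intro t _
    have h1 : ∑ᶠ x, sg t (∅ : Finset B) • a x (insert t ∅) =
        - ∑ᶠ x, sg t (∅ : Finset B) • a x (insert t ∅) := by
      rw [← finsum_neg_distrib]
      rw [← finsum_comp_equiv (Equiv.mulRight (X.s t))]
      apply finsum_congr
      intro x
      rw [Equiv.coe_mulRight, ha.2.1 x _ t (Finset.mem_insert_self _ _), smul_neg]
    exact self_eq_neg.mp h1
  · intro t _
    apply (X.aug_supp ha (insert t ∅)).subset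
    intro x hx h
    apply hx
    show sg t (∅ : Finset B) • a x (insert t ∅) = 0
    rw [show a x (insert t ∅) = 0 from h, smul_zero]

/-- exactness in degree zero -/
theorem exact_zero [NoZeroDivisors k] [CharZero k] {a : G → Finset B → k} (ha : a ∈ X.C k 0)
    (h0 : aug a = 0) : ∃ b ∈ X.C k 1, bdG b = a := by
  obtain ⟨N, hN⟩ := X.exists_bound ha
  have hd : bdG a = 0 := by
    funext x T
    unfold bdG bd
    apply Finset.sum_eq_zero
    intro t ht
    have : a x (insert t T) = 0 := by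
      by_contra h
      have := (ha.1 _ _ h).1
      rw [Finset.card_eq_zero] at this
      exact Finset.insert_ne_empty _ _ this
    rw [this, smul_zero]
  obtain ⟨b, hb, hb2⟩ := X.peel N a ha hd hN
  refine ⟨b, hb, ?_⟩
  have h1 : a - bdG b ∈ X.C k 0 := Submodule.sub_mem _ ha (X.bdG_mem hb)
  have h2 : aug (a - bdG b) = 0 := by
    have h3 : a - bdG b = a + (-1 : k) • bdG b := by
      rw [neg_one_smul, sub_eq_add_neg]
    rw [h3, X.aug_add ha (Submodule.smul_mem _ _ (X.bdG_mem hb)), X.aug_smul (X.bdG_mem hb),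
      X.aug_bd hb, h0, smul_zero, add_zero]
  have h3 : aug (a - bdG b) = (a - bdG b) 1 ∅ := by
    unfold aug
    apply finsum_eq_single
    intro x hx
    by_contra h
    exact hx (hb2 x (fun h4 => h (by rw [h4]; rfl)))
  have h4 : a - bdG b = 0 := by
    funext x T
    by_contra h
    have h5 := hb2 x (fun h4 => h (by rw [h4]; rfl))
    have h6 := (h1.1 _ _ h).1
    rw [Finset.card_eq_zero] at h6
    rw [h5, h6] at h
    apply h
    rw [← h3, h2]
    rfl
  exact (sub_eq_zero.mp h4).symm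

theorem W_empty : X.W ∅ = ⊥ := by
  unfold W
  simp

theorem sph_empty : X.Sph ∅ := by
  refine ⟨Finset.empty_subset _, ?_⟩
  rw [W_empty]
  simp

theorem aug_e : aug (X.e 1 ∅ : G → Finset B → k) = 1 := by
  unfold aug
  rw [finsum_eq_single _ 1]
  · exact X.e_self 1 ∅
  · intro x hx
    by_contra h
    have := (X.e_ne h).2
    rw [X.W_empty, Subgroup.mem_bot] at this
    apply hx
    simpa using this

section action

/-- left translation -/
def tr (g : G) (a : G → Finset B → k) : G → Finset B → k := fun x => a (g⁻¹ * x)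

theorem tr_mem {n : ℕ} (g : G) {a : G → Finset B → k} (ha : a ∈ X.C k n) : tr g a ∈ X.C k n := by
  refine ⟨fun x T h => ha.1 _ T h, ?_, ?_⟩
  · intro x T t ht
    unfold tr
    rw [← mul_assoc, ha.2.1 _ T t ht]
  · have h1 : {x | tr g a x ≠ 0} = (fun x => g⁻¹ * x) ⁻¹' {x | a x ≠ 0} := rfl
    rw [h1]
    exact ha.2.2.preimage (mul_right_injective g⁻¹).injOn

theorem tr_e (g x : G) (T : Finset B) : tr g (X.e x T : G → Finset B → k) = X.e (g * x) T := by
  funext y T'
  unfold tr e
  rw [mul_inv_rev, mul_assoc]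

variable {Δ : Type} [Group Δ] (j : Δ →* G)

/-- the representation on chains -/
def rho (n : ℕ) : Representation k Δ (X.C k n) where
  toFun δ :=
    { toFun := fun a => ⟨tr (j δ) a.1, X.tr_mem (j δ) a.2⟩
      map_add' := fun _ _ => rfl
      map_smul' := fun _ _ => rfl }
  map_one' := by
    apply LinearMap.ext
    intro a
    apply Subtype.ext
    funext x
    show a.1 ((j 1)⁻¹ * x) = a.1 x
    rw [map_one, inv_one, one_mul]
  map_mul' δ ε := by
    apply LinearMap.ext
    intro a
    apply Subtype.ext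
    funext x
    show a.1 ((j (δ * ε))⁻¹ * x) = a.1 ((j ε)⁻¹ * ((j δ)⁻¹ * x))
    rw [map_mul, mul_inv_rev, mul_assoc]

theorem rho_apply (n : ℕ) (δ : Δ) (a : X.C k n) : (X.rho j n δ a).1 = tr (j δ) a.1 := rfl

/-- same double coset -/
def dcos (T : Finset B) (x y : G) : Prop := ∃ δ : Δ, ∃ u ∈ X.W T, y = j δ * x * u

/-- the double coset relation -/
def dset (T : Finset B) : Setoid G where
  r := X.dcos j T
  iseqv :=
    { refl := fun x => ⟨1, 1, Subgroup.one_mem _, by simp⟩
      symm := by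
        rintro x y ⟨δ, u, hu, rfl⟩
        exact ⟨δ⁻¹, u⁻¹, Subgroup.inv_mem _ hu, by rw [map_inv]; group⟩
      trans := by
        rintro x y z ⟨δ, u, hu, rfl⟩ ⟨ε, v, hv, rfl⟩
        exact ⟨ε * δ, u * v, Subgroup.mul_mem _ hu hv, by rw [map_mul]; group⟩ }

/-- representatives -/
noncomputable def rep (T : Finset B) (x : G) : G := (Quotient.mk (X.dset j T) x).out

theorem rep_rel (T : Finset B) (x : G) : X.dcos j T (X.rep j T x) x :=
  Quotient.exact (s := X.dset j T) (Quotient.out_eq _)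

theorem rep_eq {T : Finset B} {x y : G} (h : X.dcos j T x y) : X.rep j T x = X.rep j T y := by
  unfold rep
  rw [Quotient.sound (s := X.dset j T) h]

theorem rep_rep (T : Finset B) (x : G) : X.rep j T (X.rep j T x) = X.rep j T x :=
  X.rep_eq j (X.rep_rel j T x)

/-- the index set of the free basis -/
def R (n : ℕ) : Type := {p : G × Finset B // p.2.card = n ∧ X.Sph p.2 ∧ p.1 = X.rep j p.2 p.1}

variable {j} in
theorem pt_inj (hj : Function.Injective j) {n : ℕ} {δ δ' : Δ} {p p' : X.R j n}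
    (h1 : p.1.2 = p'.1.2) (h2 : j δ * p.1.1 = j δ' * p'.1.1) : (δ, p) = (δ', p') := by
  obtain ⟨⟨r, T⟩, hp1, hp2, hp3⟩ := p
  obtain ⟨⟨r', T'⟩, hp1', hp2', hp3'⟩ := p'
  simp only at h1 h2 hp3 hp3'
  subst h1
  have h3 : r = r' := by
    rw [hp3, hp3']
    apply X.rep_eq
    refine ⟨δ'⁻¹ * δ, 1, Subgroup.one_mem _, ?_⟩
    rw [map_mul, map_inv, mul_one, mul_assoc, h2, inv_mul_cancel_left]
  subst h3
  have h4 : δ = δ' := hj (mul_right_cancel h2)
  rw [h4]

/-- the coordinates -/
noncomputable def crd {j : Δ →* G} (hj : Function.Injective j) (n : ℕ) :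
    X.C k n →ₗ[k] (Δ × X.R j n →₀ k) where
  toFun a := Finsupp.ofSupportFinite (fun p => a.1 (j p.1 * p.2.1.1) p.2.1.2) (by
    have h1 : ((a.2.2.2.toFinset ×ˢ (Finset.univ : Finset (Finset B)) : Finset (G × Finset B)) :
        Set (G × Finset B)).Finite := Finset.finite_toSet _
    apply Set.Finite.of_finite_image (f := fun p : Δ × X.R j n => (j p.1 * p.2.1.1, p.2.1.2))
    · apply h1.subset
      rintro _ ⟨p, hp, rfl⟩
      simp only [Finset.coe_product, Set.mem_prod, Finset.mem_coe, Finset.mem_univ, and_true,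
        Set.Finite.mem_toFinset, Set.mem_ofPred_eq]
      intro h
      apply hp
      show a.1 (j p.1 * p.2.1.1) p.2.1.2 = 0
      rw [h]
      rfl
    · rintro ⟨δ, p⟩ _ ⟨δ', p'⟩ _ h
      simp only [Prod.mk.injEq] at h
      exact X.pt_inj hj h.2 h.1)
  map_add' a b := by
    ext p
    rfl
  map_smul' c a := by
    ext p
    rfl

theorem crd_apply {j : Δ →* G} (hj : Function.Injective j) (n : ℕ) (a : X.C k n)
    (p : Δ × X.R j n) : X.crd hj n a p = a.1 (j p.1 * p.2.1.1) p.2.1.2 := rfl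

theorem crd_inj {j : Δ →* G} (hj : Function.Injective j) (n : ℕ) :
    Function.Injective (X.crd (k := k) hj n) := by
  rw [injective_iff_map_eq_zero]
  intro a ha
  apply Subtype.ext
  funext y T
  by_contra h
  obtain ⟨h1, h2⟩ := a.2.1 y T h
  obtain ⟨δ, u, hu, h3⟩ := X.rep_rel j T y
  apply h
  rw [h3, X.anti a.2 _ hu]
  have h4 := X.crd_apply hj n a (δ, ⟨(X.rep j T y, T), h1, h2, (X.rep_rep j T y).symm⟩)
  rw [ha] at h4
  rw [show a.1 (j δ * X.rep j T y) T = 0 from h4.symm, mul_zero]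
  rfl

/-- basis elements -/
noncomputable def be {j : Δ →* G} {n : ℕ} (p : Δ × X.R j n) : X.C k n :=
  ⟨X.e (j p.1 * p.2.1.1) p.2.1.2, X.e_mem _ p.2.2.2.1 p.2.2.1⟩

theorem crd_be {j : Δ →* G} (hj : Function.Injective j)
    (tf : ∀ δ : Δ, IsOfFinOrder δ → δ = 1) (n : ℕ) (p : Δ × X.R j n) :
    X.crd (k := k) hj n (X.be p) = Finsupp.single p 1 := by
  classical
  ext p'
  rw [crd_apply, Finsupp.single_apply]
  by_cases h : p = p'
  · subst h
    rw [if_pos rfl]
    exact X.e_self _ _
  · rw [if_neg h]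
    by_contra hne
    obtain ⟨h1, h2⟩ := X.e_ne hne
    apply h
    obtain ⟨δ, ⟨⟨r, T⟩, hp1, hp2, hp3⟩⟩ := p
    obtain ⟨δ', ⟨⟨r', T'⟩, hp1', hp2', hp3'⟩⟩ := p'
    simp only at h1 h2 hp3 hp3' hp2
    subst h1
    have h3 : r = r' := by
      rw [hp3, hp3']
      apply X.rep_eq
      refine ⟨δ'⁻¹ * δ, (j δ * r)⁻¹ * (j δ' * r'), h2, ?_⟩
      rw [map_mul, map_inv]
      group
    subst h3
    have h4 : IsOfFinOrder ((j δ * r)⁻¹ * (j δ' * r)) := by
      have : Finite (X.W T') := hp2.2.to_subtype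
      have h5 := isOfFinOrder_of_finite (⟨_, h2⟩ : X.W T')
      exact Submonoid.isOfFinOrder_coe.mpr h5
    have h5 : (j δ * r)⁻¹ * (j δ' * r) = r⁻¹ * j (δ⁻¹ * δ') * r := by
      rw [map_mul, map_inv]
      group
    rw [h5] at h4
    have h6 : IsOfFinOrder (j (δ⁻¹ * δ')) := by
      have h7 := isOfFinOrder_iff_pow_eq_one.mp h4
      obtain ⟨m, hm, h8⟩ := h7
      apply isOfFinOrder_iff_pow_eq_one.mpr
      refine ⟨m, hm, ?_⟩
      have h9 := conj_pow (i := m) (a := r⁻¹) (b := j (δ⁻¹ * δ'))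
      rw [inv_inv, h8] at h9
      have h10 := congrArg (fun z => r * z * r⁻¹) h9
      rw [mul_one, mul_inv_cancel] at h10
      rw [h10]
      group
    have h7 : IsOfFinOrder (δ⁻¹ * δ') := by
      obtain ⟨m, hm, h8⟩ := isOfFinOrder_iff_pow_eq_one.mp h6
      apply isOfFinOrder_iff_pow_eq_one.mpr
      refine ⟨m, hm, ?_⟩
      apply hj
      rw [map_pow, h8, map_one]
    have h8 := tf _ h7
    rw [inv_mul_eq_one] at h8
    rw [h8]

theorem crd_surj {j : Δ →* G} (hj : Function.Injective j)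
    (tf : ∀ δ : Δ, IsOfFinOrder δ → δ = 1) (n : ℕ) :
    Function.Surjective (X.crd (k := k) hj n) := by
  intro c
  induction c using Finsupp.induction_linear with
  | zero => exact ⟨0, map_zero _⟩
  | add f g hf hg =>
    obtain ⟨a, rfl⟩ := hf
    obtain ⟨b, rfl⟩ := hg
    exact ⟨a + b, map_add _ _ _⟩
  | single p r =>
    refine ⟨r • X.be p, ?_⟩
    rw [map_smul, X.crd_be hj tf, Finsupp.smul_single, smul_eq_mul, mul_one]

/-- the free basis -/
noncomputable def bas {j : Δ →* G} (hj : Function.Injective j)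
    (tf : ∀ δ : Δ, IsOfFinOrder δ → δ = 1) (n : ℕ) : Module.Basis (Δ × X.R j n) k (X.C k n) :=
  Module.Basis.ofRepr (LinearEquiv.ofBijective (X.crd hj n) ⟨X.crd_inj hj n, X.crd_surj hj tf n⟩)

theorem bas_apply {j : Δ →* G} (hj : Function.Injective j)
    (tf : ∀ δ : Δ, IsOfFinOrder δ → δ = 1) (n : ℕ) (p : Δ × X.R j n) :
    X.bas (k := k) hj tf n p = X.be p := by
  apply (X.bas (k := k) hj tf n).repr.injective
  rw [Module.Basis.repr_self]
  exact (X.crd_be hj tf n p).symm

theorem rho_bas {j : Δ →* G} (hj : Function.Injective j)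
    (tf : ∀ δ : Δ, IsOfFinOrder δ → δ = 1) (n : ℕ) (δ δ' : Δ) (r : X.R j n) :
    X.rho j n δ (X.bas (k := k) hj tf n (δ', r)) = X.bas hj tf n (δ * δ', r) := by
  rw [bas_apply, bas_apply]
  apply Subtype.ext
  rw [rho_apply]
  show tr (j δ) (X.e (j δ' * r.1.1) r.1.2) = X.e (j (δ * δ') * r.1.1) r.1.2
  rw [tr_e, map_mul, mul_assoc]

end action

end CDat

end Cox957
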