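import Pool.Agent.helper957_gc.W4

set_option autoImplicit false
set_option linter.unusedSectionVars false

/-! The projective resolution. -/

open CategoryTheory

namespace Cox957

section free

variable {k : Type} [CommRing k] {Δ : Type} [Group Δ] {V : Type} [AddCommGroup V] [Module k V]
  {ρ : Representation k Δ V} {R : Type} (b : Module.Basis (Δ × R) k V)
  (hb : ∀ (δ δ' : Δ) (r : R), ρ δ (b (δ', r)) = b (δ * δ', r))

/-- a map out of a module with a free basis -/
noncomputable def homB (A : Rep.{0} k Δ) (v : R → A) : Rep.of ρ ⟶ A :=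
  Rep.ofHom (LinearMap.intertwiningMap_of_isIntertwiningMap ρ A.ρ
    (b.constr k (fun p => A.ρ p.1 (v p.2))) (by
      intro g w
      have h : (b.constr k (fun p => A.ρ p.1 (v p.2))) ∘ₗ (ρ g) =
          (A.ρ g) ∘ₗ (b.constr k (fun p => A.ρ p.1 (v p.2))) := by
        apply b.ext
        rintro ⟨δ, r⟩
        rw [LinearMap.comp_apply, LinearMap.comp_apply, hb, b.constr_basis, b.constr_basis]
        show A.ρ (g * δ) (v r) = A.ρ g (A.ρ δ (v r))
        rw [map_mul]
        rfl
      exact LinearMap.congr_fun h w))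

theorem homB_basis (A : Rep.{0} k Δ) (v : R → A) (p : Δ × R) :
    (homB b hb A v).hom (b p) = A.ρ p.1 (v p.2) := by
  show (b.constr k (fun p => A.ρ p.1 (v p.2))) (b p) = _
  rw [b.constr_basis]

include hb in
theorem hom_ext_basis {A : Rep.{0} k Δ} (f g : Rep.of ρ ⟶ A)
    (h : ∀ r, f.hom (b (1, r)) = g.hom (b (1, r))) : f = g := by
  apply Rep.hom_ext
  apply Representation.IntertwiningMap.ext
  apply b.ext
  rintro ⟨δ, r⟩
  have h1 : b (δ, r) = ρ δ (b (1, r)) := by rw [hb, mul_one]
  show f.hom (b (δ, r)) = g.hom (b (δ, r))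
  rw [h1]
  have h2 := Rep.hom_comm_apply f δ (b (1, r))
  have h3 := Rep.hom_comm_apply g δ (b (1, r))
  exact h2.trans ((congrArg (A.ρ δ) (h r)).trans h3.symm)

include hb in
theorem proj_basis : Projective (Rep.of ρ) where
  factors := by
    intro E A f e he
    have hs := (Rep.epi_iff_surjective e).mp he
    choose v hv using fun r => hs (f.hom (b (1, r)))
    refine ⟨homB b hb E v, ?_⟩
    apply hom_ext_basis b hb
    intro r
    rw [Rep.hom_comp]
    show e.hom ((homB b hb E v).hom (b (1, r))) = _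
    rw [homB_basis, map_one]
    exact hv r

end free

namespace CDat

variable {B G : Type} [LinearOrder B] [Fintype B] [Group G] (X : CDat B G)
variable (k : Type) [CommRing k] {Δ : Type} [Group Δ] (j : Δ →* G)

/-- boundary as a linear map -/
def dL (n : ℕ) : X.C k (n + 1) →ₗ[k] X.C k n where
  toFun a := ⟨bdG a.1, X.bdG_mem a.2⟩
  map_add' a b := Subtype.ext (bdG_add a.1 b.1)
  map_smul' c a := Subtype.ext (bdG_smul c a.1)

/-- chains as representation -/
noncomputable def CR (n : ℕ) : Rep.{0} k Δ := Rep.of (X.rho (k := k) j n)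

/-- boundary -/
noncomputable def dR (n : ℕ) : X.CR k j (n + 1) ⟶ X.CR k j n :=
  Rep.ofHom (LinearMap.intertwiningMap_of_isIntertwiningMap _ _ (X.dL k n) (by
    intro g v
    rfl))

/-- augmentation as a linear map -/
noncomputable def augL : X.C k 0 →ₗ[k] k where
  toFun a := aug a.1
  map_add' a b := X.aug_add a.2 b.2
  map_smul' c a := X.aug_smul a.2 c

/-- augmentation -/
noncomputable def augR : X.CR k j 0 ⟶ Rep.trivial k Δ k :=
  Rep.ofHom (LinearMap.intertwiningMap_of_isIntertwiningMap _ _ (X.augL k) (by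
    intro g v
    show aug (tr (j g) v.1) = aug v.1
    unfold aug tr
    exact finsum_comp_equiv (Equiv.mulLeft (j g)⁻¹) (f := fun x => v.1 x ∅)))

theorem dR_dR (n : ℕ) : X.dR k j (n + 1) ≫ X.dR k j n = 0 := by
  apply Rep.hom_ext
  apply Representation.IntertwiningMap.ext
  apply LinearMap.ext
  intro a
  apply Subtype.ext
  exact bdG_bdG a.1

/-- the complex -/
noncomputable def cplx : ChainComplex (Rep.{0} k Δ) ℕ :=
  ChainComplex.of (X.CR k j) (X.dR k j) (X.dR_dR k j)

theorem cplx_d (n : ℕ) : (X.cplx k j).d (n + 1) n = X.dR k j n := by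
  unfold cplx
  simp

variable [NoZeroDivisors k] [CharZero k]

theorem d_aug : (X.cplx k j).d 1 0 ≫ X.augR k j = 0 := by
  rw [cplx_d]
  apply Rep.hom_ext
  apply Representation.IntertwiningMap.ext
  apply LinearMap.ext
  intro a
  exact X.aug_bd a.2

/-- the map to the trivial representation -/
noncomputable def piR : X.cplx k j ⟶ (ChainComplex.single₀ (Rep.{0} k Δ)).obj (Rep.trivial k Δ k) :=
  ((X.cplx k j).toSingle₀Equiv _).symm ⟨X.augR k j, X.d_aug k j⟩

theorem piR_quasi : QuasiIso (X.piR k j) where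
  quasiIsoAt m := by
    have h1 : (((X.cplx k j).toSingle₀Equiv (Rep.trivial k Δ k)).symm
        ⟨X.augR k j, X.d_aug k j⟩).f 0 = X.augR k j :=
      ChainComplex.toSingle₀Equiv_symm_apply_f_zero _ _
    cases m with
    | zero =>
      unfold piR
      rw [ChainComplex.quasiIsoAt₀_iff, ShortComplex.quasiIso_iff_of_zeros' _ rfl rfl rfl]
      constructor
      · apply (forget₂ _ (ModuleCat k)).reflects_exact_of_faithful
        rw [ShortComplex.moduleCat_exact_iff]
        intro a ha
        have ha' : (X.augR k j).hom a = 0 := by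
          rw [← h1]; exact ha
        obtain ⟨b, hb, hb2⟩ := X.exact_zero (k := k) a.2 ha'
        refine ⟨⟨b, hb⟩, ?_⟩
        show ((X.cplx k j).d 1 0).hom ⟨b, hb⟩ = a
        rw [cplx_d]
        exact Subtype.ext hb2
      · rw [Rep.epi_iff_surjective]
        intro x
        have key : ∀ x : k, ∃ a : X.C k 0, X.augL k a = x := by
          intro x
          refine ⟨x • ⟨X.e 1 ∅, X.e_mem 1 X.sph_empty rfl⟩, ?_⟩
          rw [map_smul]
          show x • aug (X.e 1 ∅ : G → Finset B → k) = x
          rw [X.aug_e, smul_eq_mul, mul_one]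
        obtain ⟨a, ha⟩ := key x
        refine ⟨a, ?_⟩
        show ((((X.cplx k j).toSingle₀Equiv (Rep.trivial k Δ k)).symm
          ⟨X.augR k j, X.d_aug k j⟩).f 0).hom a = x
        rw [h1]
        exact ha
    | succ m =>
      rw [quasiIsoAt_iff_exactAt' (hL := ChainComplex.exactAt_succ_single_obj ..),
          HomologicalComplex.exactAt_iff' _ (m + 2) (m + 1) m (by simp) (by simp)]
      apply (forget₂ _ (ModuleCat k)).reflects_exact_of_faithful
      rw [ShortComplex.moduleCat_exact_iff]
      intro a ha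
      have ha' : ((X.cplx k j).d (m + 1) m).hom a = 0 := ha
      rw [cplx_d] at ha'
      have ha2 : bdG a.1 = 0 := congrArg Subtype.val ha'
      obtain ⟨b, hb, hb2⟩ := X.exact_pos (k := k) a.2 ha2
      refine ⟨⟨b, hb⟩, ?_⟩
      show ((X.cplx k j).d (m + 2) (m + 1)).hom ⟨b, hb⟩ = a
      rw [cplx_d]
      exact Subtype.ext hb2

variable {j}

/-- the projective resolution -/
noncomputable def reso (hj : Function.Injective j) (tf : ∀ δ : Δ, IsOfFinOrder δ → δ = 1) :
    ProjectiveResolution (Rep.trivial k Δ k) where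
  complex := X.cplx k j
  projective n := proj_basis (X.bas hj tf n) (X.rho_bas hj tf n)
  π := X.piR k j
  quasiIso := X.piR_quasi k j

/-- vanishing of group cohomology in terms of the complex -/
theorem coh_iff (hj : Function.Injective j) (tf : ∀ δ : Δ, IsOfFinOrder δ → δ = 1) (n : ℕ)
    (A : Rep.{0} k Δ) :
    Subsingleton (groupCohomology A (n + 1)) ↔
      ∀ f : X.CR k j (n + 1) ⟶ A, X.dR k j (n + 1) ≫ f = 0 →
        ∃ g : X.CR k j n ⟶ A, X.dR k j n ≫ g = f := by
  have i := groupCohomologyIso A (n + 1) (X.reso k hj tf)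
  have h1 : Subsingleton (groupCohomology A (n + 1)) ↔
      Limits.IsZero (groupCohomology A (n + 1)) :=
    (ModuleCat.isZero_iff_subsingleton (M := groupCohomology A (n + 1))).symm
  rw [h1, i.isZero_iff, ← HomologicalComplex.exactAt_iff_isZero_homology,
    HomologicalComplex.exactAt_iff' _ n (n + 1) (n + 2) (by simp) (by simp),
    ShortComplex.moduleCat_exact_iff]
  constructor
  · intro h f hf
    obtain ⟨g, hg⟩ := h f (by
      show (X.cplx k j).d (n + 2) (n + 1) ≫ f = 0
      rw [cplx_d]
      exact hf)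
    refine ⟨g, ?_⟩
    have hg' : (X.cplx k j).d (n + 1) n ≫ g = f := hg
    rw [cplx_d] at hg'
    exact hg'
  · intro h f hf
    have hf' : (X.cplx k j).d (n + 2) (n + 1) ≫ f = 0 := hf
    rw [cplx_d] at hf'
    obtain ⟨g, hg⟩ := h f hf'
    refine ⟨g, ?_⟩
    show (X.cplx k j).d (n + 1) n ≫ g = f
    rw [cplx_d]
    exact hg

end CDat

end Cox957
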