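import Pool.Agent.helper957_gc.W5

set_option autoImplicit false
set_option linter.unusedSectionVars false

/-! Rational direction: vanishing of rational group cohomology gives vanishing of the rational
oriented cohomology of the complex of spherical subsets. -/

open CategoryTheory

namespace Cox957

namespace CDat

variable {B G : Type} [LinearOrder B] [Fintype B] [Group G] (X : CDat B G)

theorem chi_inv (x : G) : X.chi x⁻¹ = X.chi x := by
  have h3 := X.chi_mul x⁻¹ x
  rw [inv_mul_cancel, X.chi_one] at h3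
  have h4 := X.chi_sq x
  calc X.chi x⁻¹ = X.chi x⁻¹ * (X.chi x * X.chi x) := by rw [h4, mul_one]
    _ = (X.chi x⁻¹ * X.chi x) * X.chi x := by ring
    _ = _ := by rw [← h3, one_mul]

theorem chi_sqQ (x : G) : (X.chi x : ℚ) * (X.chi x : ℚ) = 1 := by
  exact_mod_cast congrArg (Int.cast : ℤ → ℚ) (X.chi_sq x)

theorem chi_mulQ (x y : G) : (X.chi (x * y) : ℚ) = (X.chi x : ℚ) * (X.chi y : ℚ) := by
  rw [X.chi_mul]; push_cast; rfl

/-- sign representation -/
def sgRep {Δ : Type} [Group Δ] (j : Δ →* G) : Representation ℚ Δ ℚ where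
  toFun δ := (X.chi (j δ) : ℚ) • LinearMap.id
  map_one' := by
    apply LinearMap.ext
    intro q
    show (X.chi (j 1) : ℚ) * q = q
    rw [map_one, X.chi_one]
    simp
  map_mul' δ ε := by
    apply LinearMap.ext
    intro q
    show (X.chi (j (δ * ε)) : ℚ) * q = (X.chi (j δ) : ℚ) * ((X.chi (j ε) : ℚ) * q)
    rw [map_mul, X.chi_mulQ, mul_assoc]

/-- the pairing with a sign cochain -/
noncomputable def pr (g : Finset B → ℚ) (a : G → Finset B → ℚ) : ℚ :=
  ∑ᶠ x, (X.chi x : ℚ) * ∑ T, a x T * g T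

theorem pr_supp (g : Finset B → ℚ) {n : ℕ} {a : G → Finset B → ℚ} (ha : a ∈ X.C ℚ n) :
    (Function.support fun x => (X.chi x : ℚ) * ∑ T, a x T * g T).Finite := by
  apply ha.2.2.subset
  intro x hx h
  apply hx
  show (X.chi x : ℚ) * ∑ T, a x T * g T = 0
  rw [h]
  simp

theorem pr_add (g : Finset B → ℚ) {n : ℕ} {a b : G → Finset B → ℚ} (ha : a ∈ X.C ℚ n)
    (hb : b ∈ X.C ℚ n) : X.pr g (a + b) = X.pr g a + X.pr g b := by
  unfold pr
  rw [← finsum_add_distrib (X.pr_supp g ha) (X.pr_supp g hb)]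
  apply finsum_congr
  intro x
  rw [← mul_add, ← Finset.sum_add_distrib]
  congr 1
  apply Finset.sum_congr rfl
  intro T _
  rw [Pi.add_apply, Pi.add_apply, add_mul]

theorem pr_smul (g : Finset B → ℚ) {n : ℕ} {a : G → Finset B → ℚ} (ha : a ∈ X.C ℚ n) (c : ℚ) :
    X.pr g (c • a) = c • X.pr g a := by
  unfold pr
  rw [smul_finsum' c (X.pr_supp g ha)]
  apply finsum_congr
  intro x
  have h1 : ∑ T, (c • a) x T * g T = c * ∑ T, a x T * g T := by
    rw [Finset.mul_sum]
    apply Finset.sum_congr rfl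
    intro T _
    rw [Pi.smul_apply, Pi.smul_apply, smul_eq_mul, mul_assoc]
  rw [h1, smul_eq_mul]
  ring

theorem pr_tr (g : Finset B → ℚ) (y : G) (a : G → Finset B → ℚ) :
    X.pr g (tr y a) = (X.chi y : ℚ) * X.pr g a := by
  unfold pr tr
  rw [← finsum_comp_equiv (Equiv.mulLeft y)]
  have h1 : ∀ x, (X.chi ((Equiv.mulLeft y) x) : ℚ) * ∑ T, a (y⁻¹ * (Equiv.mulLeft y) x) T * g T =
      (X.chi y : ℚ) * ((X.chi x : ℚ) * ∑ T, a x T * g T) := by
    intro x
    rw [Equiv.coe_mulLeft, inv_mul_cancel_left, X.chi_mulQ, mul_assoc]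
  rw [finsum_congr h1]
  exact (smul_finsum (X.chi y : ℚ) (fun x => (X.chi x : ℚ) * ∑ T, a x T * g T)).symm

theorem pr_bd (g : Finset B → ℚ) {n : ℕ} (hg : ∀ T, X.Sph T → T.card = n + 1 → dlt g T = 0)
    {a : G → Finset B → ℚ} (ha : a ∈ X.C ℚ (n + 1)) : X.pr g (bdG a) = 0 := by
  unfold pr bdG
  apply finsum_eq_zero_of_forall_eq_zero
  intro x
  have h1 := pair_bd (a x) g
  simp only [smul_eq_mul] at h1
  rw [h1]
  have h2 : ∑ T, a x T * dlt g T = 0 := by
    apply Finset.sum_eq_zero
    intro T _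
    by_cases h : a x T = 0
    · rw [h, zero_mul]
    · obtain ⟨h3, h4⟩ := ha.1 x T h
      rw [hg T h4 h3, mul_zero]
  rw [h2, mul_zero]

theorem pr_e (g : Finset B → ℚ) (y : G) {T : Finset B} (hT : X.Sph T) :
    X.pr g (X.e y T) = (Nat.card (X.W T) : ℚ) * (X.chi y : ℚ) * g T := by
  classical
  have : Finite (X.W T) := hT.2.to_subtype
  unfold pr
  have h1 : ∀ x, (X.chi x : ℚ) * ∑ T', (X.e y T x T' : ℚ) * g T' =
      if y⁻¹ * x ∈ X.W T then (X.chi y : ℚ) * g T else 0 := by
    intro x
    rw [Finset.sum_eq_single T]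
    · unfold e
      by_cases h : y⁻¹ * x ∈ X.W T
      · rw [if_pos ⟨rfl, h⟩, if_pos h, X.chi_mulQ, X.chi_inv]
        have := X.chi_sqQ x
        calc (X.chi x : ℚ) * ((X.chi y : ℚ) * (X.chi x : ℚ) * g T) =
            ((X.chi x : ℚ) * (X.chi x : ℚ)) * ((X.chi y : ℚ) * g T) := by ring
          _ = _ := by rw [this, one_mul]
      · rw [if_neg (by simp [h]), if_neg h]
        simp
    · intro T' _ hT'
      have : (X.e y T x T' : ℚ) = 0 := by
        by_contra h
        exact hT' (X.e_ne h).1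
      rw [this, zero_mul]
    · intro h
      exact absurd (Finset.mem_univ _) h
  rw [finsum_congr h1]
  rw [← finsum_comp_equiv (Equiv.mulLeft y)]
  have h2 : ∀ x, (if y⁻¹ * (Equiv.mulLeft y) x ∈ X.W T then (X.chi y : ℚ) * g T else 0) =
      if x ∈ X.W T then (X.chi y : ℚ) * g T else 0 := by
    intro x
    rw [Equiv.coe_mulLeft, inv_mul_cancel_left]
  rw [finsum_congr h2]
  rw [finsum_eq_sum_of_support_subset (s := hT.2.toFinset)]
  · rw [Finset.sum_congr rfl (g := fun _ => (X.chi y : ℚ) * g T)]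
    · rw [Finset.sum_const, nsmul_eq_mul, ← mul_assoc]
      congr 3
      rw [← Nat.card_eq_card_finite_toFinset]
      rfl
    · intro x hx
      rw [Set.Finite.mem_toFinset] at hx
      exact if_pos hx
  · intro x hx
    rw [Set.Finite.coe_toFinset]
    by_contra h
    apply hx
    exact if_neg h

theorem bd_e (y : G) {T : Finset B} (hT : X.Sph T) :
    bdG (X.e y T : G → Finset B → ℚ) = ∑ t ∈ T, ((sg t T : ℚ) * (Nat.card (X.W (T.erase t)) : ℚ)⁻¹) •
      ∑ u ∈ hT.2.toFinset, (X.chi u : ℚ) • X.e (y * u) (T.erase t) := by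
  classical
  funext z T'
  simp only [Finset.sum_apply, Pi.smul_apply, smul_eq_mul]
  -- left side
  have hL : bdG (X.e y T : G → Finset B → ℚ) z T' =
      ∑ t ∈ T, if T' = T.erase t ∧ y⁻¹ * z ∈ X.W T then (sg t T : ℚ) * (X.chi (y⁻¹ * z) : ℚ) else 0 := by
    unfold bdG bd
    rw [← Finset.sum_filter_add_sum_filter_not (T'ᶜ) (fun t => t ∈ T)]
    have h1 : ∑ t ∈ T'ᶜ.filter (fun t => t ∉ T), sg t T' • (X.e y T z (insert t T') : ℚ) = 0 := by
      apply Finset.sum_eq_zero
      intro t ht
      rw [Finset.mem_filter] at ht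
      have : (X.e y T z (insert t T') : ℚ) = 0 := by
        by_contra h
        have := (X.e_ne h).1
        apply ht.2
        rw [← this]
        exact Finset.mem_insert_self _ _
      rw [this, smul_zero]
    rw [h1, add_zero]
    have h2 : ∑ t ∈ T, (if T' = T.erase t ∧ y⁻¹ * z ∈ X.W T then
        (sg t T : ℚ) * (X.chi (y⁻¹ * z) : ℚ) else 0) =
        ∑ t ∈ T'ᶜ.filter (fun t => t ∈ T), (if T' = T.erase t ∧ y⁻¹ * z ∈ X.W T then
        (sg t T : ℚ) * (X.chi (y⁻¹ * z) : ℚ) else 0) := by
      symm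
      apply Finset.sum_subset
      · intro t ht
        exact (Finset.mem_filter.mp ht).2
      · intro t ht ht2
        rw [if_neg]
        rintro ⟨h3, _⟩
        apply ht2
        rw [Finset.mem_filter, Finset.mem_compl]
        refine ⟨?_, ht⟩
        rw [h3]
        simp
    rw [h2]
    apply Finset.sum_congr rfl
    intro t ht
    rw [Finset.mem_filter, Finset.mem_compl] at ht
    unfold e
    have h3 : (insert t T' = T) ↔ (T' = T.erase t) := by
      constructor
      · intro h
        rw [← h, Finset.erase_insert ht.1]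
      · intro h
        rw [h, Finset.insert_erase ht.2]
    by_cases h : T' = T.erase t ∧ y⁻¹ * z ∈ X.W T
    · rw [if_pos h, if_pos ⟨h3.mpr h.1, h.2⟩]
      have h4 : sg t T' = sg t T := by rw [h.1, sg_erase_self]
      rw [h4, zsmul_eq_mul]
    · rw [if_neg h, if_neg (by rw [h3]; exact h), smul_zero]
  rw [hL]
  apply Finset.sum_congr rfl
  intro t ht
  -- right side
  have hfin : (X.W (T.erase t) : Set G).Finite := (X.sph_mono (Finset.erase_subset _ _) hT).2
  have hpos : (Nat.card (X.W (T.erase t)) : ℚ) ≠ 0 := by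
    have : Finite (X.W (T.erase t)) := hfin.to_subtype
    exact_mod_cast Nat.card_pos.ne'
  by_cases h : T' = T.erase t
  · subst h
    by_cases h2 : y⁻¹ * z ∈ X.W T
    · rw [if_pos ⟨rfl, h2⟩]
      have h3 : ∀ u ∈ hT.2.toFinset, (X.chi u : ℚ) * X.e (y * u) (T.erase t) z (T.erase t) =
          if u⁻¹ * (y⁻¹ * z) ∈ X.W (T.erase t) then (X.chi (y⁻¹ * z) : ℚ) else 0 := by
        intro u _
        unfold e
        rw [mul_inv_rev, mul_assoc]
        by_cases h4 : u⁻¹ * (y⁻¹ * z) ∈ X.W (T.erase t)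
        · rw [if_pos ⟨rfl, h4⟩, if_pos h4, X.chi_mulQ u⁻¹, X.chi_inv, ← mul_assoc, X.chi_sqQ,
            one_mul]
        · rw [if_neg (by simp only [not_and]; exact fun _ => h4), if_neg h4, mul_zero]
      rw [Finset.sum_congr rfl h3, ← Finset.sum_filter, Finset.sum_const, nsmul_eq_mul]
      have h5 : (hT.2.toFinset.filter (fun u => u⁻¹ * (y⁻¹ * z) ∈ X.W (T.erase t))).card =
          Nat.card (X.W (T.erase t)) := by
        have h6 : Nat.card (X.W (T.erase t)) = hfin.toFinset.card :=
          Nat.card_eq_card_finite_toFinset hfin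
        rw [h6]
        apply Finset.card_bij' (fun u _ => u⁻¹ * (y⁻¹ * z)) (fun v _ => (y⁻¹ * z) * v⁻¹)
        · intro u hu
          rw [Finset.mem_filter] at hu
          rw [Set.Finite.mem_toFinset]
          exact hu.2
        · intro v hv
          rw [Set.Finite.mem_toFinset] at hv
          rw [Finset.mem_filter, Set.Finite.mem_toFinset]
          refine ⟨Subgroup.mul_mem _ h2 (Subgroup.inv_mem _
            (X.W_mono (Finset.erase_subset _ _) hv)), ?_⟩
          rw [mul_inv_rev, inv_inv, mul_assoc, inv_mul_cancel, mul_one]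
          exact hv
        · intro u _
          group
        · intro v _
          group
      rw [h5]
      field_simp
    · rw [if_neg (by simp [h2])]
      symm
      have h3 : ∀ u ∈ hT.2.toFinset, (X.chi u : ℚ) * X.e (y * u) (T.erase t) z (T.erase t) = 0 := by
        intro u hu
        rw [Set.Finite.mem_toFinset] at hu
        have : (X.e (y * u) (T.erase t) z (T.erase t) : ℚ) = 0 := by
          by_contra h4
          have h5 := (X.e_ne h4).2
          apply h2
          have h6 := X.W_mono (Finset.erase_subset _ _) h5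
          have h7 := Subgroup.mul_mem _ hu h6
          rw [mul_inv_rev] at h7
          convert h7 using 1
          group
        rw [this, mul_zero]
      rw [Finset.sum_eq_zero h3, mul_zero]
  · rw [if_neg (by simp [h])]
    symm
    have h3 : ∀ u ∈ hT.2.toFinset, (X.chi u : ℚ) * X.e (y * u) (T.erase t) z T' = 0 := by
      intro u _
      have : (X.e (y * u) (T.erase t) z T' : ℚ) = 0 := by
        by_contra h4
        exact h (X.e_ne h4).1
      rw [this, mul_zero]
    rw [Finset.sum_eq_zero h3, mul_zero]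

end CDat

end Cox957
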