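import Pool.Agent.helper957_gc.W2
import Pool.Agent.helper957_cox.Coh2

set_option autoImplicit false
set_option linter.unusedSectionVars false

/-! Oriented and ordered cochains; links and full subcomplexes. -/

namespace Cox957

variable {V : Type} [LinearOrder V] [Fintype V]

/-- vanishing of oriented simplicial cohomology, on simplices with `n` vertices -/
def OV (K : Set (Finset V)) (A : Type) [AddCommGroup A] (n : ℕ) : Prop :=
  ∀ g : Finset V → A, (∀ T ∈ K, T.card = n + 1 → dlt g T = 0) →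
    ∃ h : Finset V → A, ∀ T ∈ K, T.card = n → g T = dlt h T

variable {A : Type} [AddCommGroup A]

theorem sg_tuple {n : ℕ} {τ : Fin (n + 1) → V} (hτ : StrictMono τ) (i : Fin (n + 1)) :
    sg (τ i) (Finset.univ.image τ) = (-1) ^ (i : ℕ) := by
  unfold sg
  have h1 : (Finset.univ.image τ).filter (· < τ i) = (Finset.univ.filter (· < i)).image τ := by
    ext x
    simp only [Finset.mem_filter, Finset.mem_image, Finset.mem_univ, true_and]
    constructor
    · rintro ⟨⟨k, rfl⟩, h⟩
      exact ⟨k, hτ.lt_iff_lt.mp h, rfl⟩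
    · rintro ⟨k, h, rfl⟩
      exact ⟨⟨k, rfl⟩, hτ.lt_iff_lt.mpr h⟩
  rw [h1, Finset.card_image_of_injective _ hτ.injective]
  congr 1
  have : Finset.univ.filter (· < i) = Finset.Iio i := by
    ext x; simp
  rw [this, Fin.card_Iio]

theorem erase_tuple {n : ℕ} {τ : Fin (n + 1) → V} (hτ : StrictMono τ) (i : Fin (n + 1)) :
    (Finset.univ.image τ).erase (τ i) = Finset.univ.image (τ ∘ i.succAbove) := by
  ext x
  simp only [Finset.mem_erase, Finset.mem_image, Finset.mem_univ, true_and, Function.comp_apply]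
  constructor
  · rintro ⟨h1, k, rfl⟩
    have h2 : k ≠ i := fun h => h1 (by rw [h])
    obtain ⟨m, rfl⟩ := Fin.exists_succAbove_eq h2
    exact ⟨m, rfl⟩
  · rintro ⟨m, rfl⟩
    exact ⟨fun h => Fin.succAbove_ne i m (hτ.injective h), _, rfl⟩

theorem dlt_tuple (f : Finset V → A) {n : ℕ} {τ : Fin (n + 1) → V} (hτ : StrictMono τ) :
    dlt f (Finset.univ.image τ) =
      ∑ i : Fin (n + 1), (-1 : ℤ) ^ (i : ℕ) • f (Finset.univ.image (τ ∘ i.succAbove)) := by
  unfold dlt
  rw [Finset.sum_image (fun _ _ _ _ h => hτ.injective h)]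
  apply Finset.sum_congr rfl
  intro i _
  rw [sg_tuple hτ, erase_tuple hτ]

/-- a cochain on sets from a cochain on tuples -/
noncomputable def srt {n : ℕ} (G : (Fin n → V) → A) (S : Finset V) : A :=
  if h : S.card = n then G (S.orderEmbOfFin h) else 0

theorem srt_image {n : ℕ} (G : (Fin n → V) → A) {σ : Fin n → V} (hσ : StrictMono σ) :
    srt G (Finset.univ.image σ) = G σ := by
  have hc : (Finset.univ.image σ).card = n := by
    rw [Finset.card_image_of_injective _ hσ.injective, Finset.card_univ, Fintype.card_fin]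
  unfold srt
  rw [dif_pos hc]
  congr 1
  symm
  exact Finset.orderEmbOfFin_unique hc (fun x => Finset.mem_image_of_mem _ (Finset.mem_univ _)) hσ

theorem dlt_srt {n : ℕ} (G : (Fin n → V) → A) {τ : Fin (n + 1) → V} (hτ : StrictMono τ) :
    dlt (srt G) (Finset.univ.image τ) =
      ∑ i : Fin (n + 1), (-1 : ℤ) ^ (i : ℕ) • G (τ ∘ i.succAbove) := by
  rw [dlt_tuple _ hτ]
  apply Finset.sum_congr rfl
  intro i _
  rw [srt_image G (hτ.comp (Fin.strictMono_succAbove i))]

theorem eq_image_sorted (T : Finset V) {n : ℕ} (h : T.card = n) :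
    T = Finset.univ.image (T.orderEmbOfFin h) := by
  ext x
  rw [Finset.mem_image]
  have := Finset.range_orderEmbOfFin T h
  constructor
  · intro hx
    have h2 : x ∈ Set.range (T.orderEmbOfFin h) := by rw [this]; exact hx
    obtain ⟨i, hi⟩ := h2
    exact ⟨i, Finset.mem_univ _, hi⟩
  · rintro ⟨i, _, rfl⟩
    exact Finset.orderEmbOfFin_mem T h i

/-- wedge of a tuple -/
noncomputable def wt : (n : ℕ) → (Fin n → V) → Finset V → ℤ
  | 0, _ => fun T => if T = ∅ then 1 else 0
  | n + 1, τ => wg (τ 0) (wt n (Fin.tail τ))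

theorem image_cons_tail {n : ℕ} (τ : Fin (n + 1) → V) :
    Finset.univ.image τ = insert (τ 0) (Finset.univ.image (Fin.tail τ)) := by
  ext x
  simp only [Finset.mem_image, Finset.mem_univ, true_and, Finset.mem_insert, Fin.exists_fin_succ,
    Fin.tail]
  constructor
  · rintro (h | ⟨i, h⟩)
    · exact Or.inl h.symm
    · exact Or.inr ⟨i, h⟩
  · rintro (h | ⟨i, h⟩)
    · exact Or.inl h.symm
    · exact Or.inr ⟨i, h⟩

theorem wt_supp : ∀ (n : ℕ) (τ : Fin n → V) (T : Finset V), wt n τ T ≠ 0 →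
    T = Finset.univ.image τ ∧ T.card = n
  | 0, τ, T, h => by
    unfold wt at h
    by_cases hT : T = ∅
    · rw [hT]; simp
    · rw [if_neg hT] at h; exact absurd rfl h
  | n + 1, τ, T, h => by
    unfold wt wg at h
    by_cases hT : τ 0 ∈ T
    · rw [if_pos hT] at h
      have h1 : wt n (Fin.tail τ) (T.erase (τ 0)) ≠ 0 := by
        intro h2
        rw [h2, smul_zero] at h
        exact h rfl
      obtain ⟨h2, h3⟩ := wt_supp n _ _ h1
      constructor
      · rw [image_cons_tail, ← h2, Finset.insert_erase hT]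
      · rw [Finset.card_erase_of_mem hT] at h3
        have : 0 < T.card := Finset.card_pos.mpr ⟨_, hT⟩
        omega
    · rw [if_neg hT] at h
      exact absurd rfl h

theorem wt_strict : ∀ (n : ℕ) (τ : Fin n → V), StrictMono τ →
    wt n τ (Finset.univ.image τ) = 1
  | 0, τ, _ => by
    unfold wt
    rw [if_pos]
    simp
  | n + 1, τ, h => by
    unfold wt wg
    have h0 : τ 0 ∈ Finset.univ.image τ := Finset.mem_image_of_mem _ (Finset.mem_univ _)
    rw [if_pos h0]
    have h1 := sg_tuple h 0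
    rw [h1, erase_tuple h]
    have h2 : τ ∘ (0 : Fin (n + 1)).succAbove = Fin.tail τ := by
      funext i
      simp [Fin.tail]
    rw [h2]
    have h3 : StrictMono (Fin.tail τ) := by
      rw [← h2]
      exact h.comp (Fin.strictMono_succAbove 0)
    rw [wt_strict n _ h3]
    simp

theorem wg_sum {ι : Type} (s : Finset ι) (b : V) (c : ι → ℤ) (a : ι → Finset V → ℤ)
    (T : Finset V) :
    wg b (fun T => ∑ i ∈ s, c i • a i T) T = ∑ i ∈ s, c i • wg b (a i) T := by
  unfold wg
  split_ifs
  · rw [Finset.smul_sum]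
    apply Finset.sum_congr rfl
    intro i _
    rw [smul_comm]
  · simp

theorem bd_wt : ∀ (n : ℕ) (τ : Fin (n + 1) → V) (T : Finset V),
    bd (wt (n + 1) τ) T = ∑ i : Fin (n + 1), (-1 : ℤ) ^ (i : ℕ) • wt n (τ ∘ i.succAbove) T
  | 0, τ, T => by
    have h1 := bd_wg (τ 0) (wt 0 (Fin.tail τ)) T
    have h2 : bd (wt 0 (Fin.tail τ)) = fun _ => 0 := by
      funext S
      unfold bd
      apply Finset.sum_eq_zero
      intro t _
      unfold wt
      rw [if_neg (Finset.insert_ne_empty _ _), smul_zero]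
    have h3 : wg (τ 0) (bd (wt 0 (Fin.tail τ))) T = 0 := by
      rw [h2]
      unfold wg
      split_ifs <;> simp
    rw [h3, add_zero] at h1
    rw [show wt (0 + 1) τ = wg (τ 0) (wt 0 (Fin.tail τ)) from rfl, h1]
    simp only [Nat.reduceAdd, Fin.sum_univ_one]
    simp [wt]
  | n + 1, τ, T => by
    have h1 := bd_wg (τ 0) (wt (n + 1) (Fin.tail τ)) T
    have h2 : bd (wt (n + 1) (Fin.tail τ)) = fun S =>
        ∑ i : Fin (n + 1), (-1 : ℤ) ^ (i : ℕ) • wt n (Fin.tail τ ∘ i.succAbove) S := by
      funext S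
      exact bd_wt n _ S
    rw [h2, wg_sum] at h1
    rw [show wt (n + 1 + 1) τ = wg (τ 0) (wt (n + 1) (Fin.tail τ)) from rfl]
    rw [Fin.sum_univ_succ]
    have h3 : wt (n + 1) (τ ∘ (0 : Fin (n + 1 + 1)).succAbove) T = wt (n + 1) (Fin.tail τ) T := by
      congr 1
    rw [h3]
    have h4 : ∀ i : Fin (n + 1), (-1 : ℤ) ^ ((i.succ : Fin (n + 1 + 1)) : ℕ) •
        wt (n + 1) (τ ∘ i.succ.succAbove) T =
        - ((-1 : ℤ) ^ (i : ℕ) • wg (τ 0) (wt n (Fin.tail τ ∘ i.succAbove)) T) := by
      intro i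
      have h5 : wt (n + 1) (τ ∘ i.succ.succAbove) =
          wg (τ 0) (wt n (Fin.tail τ ∘ i.succAbove)) := by
        have h6 : (τ ∘ i.succ.succAbove) 0 = τ 0 := by simp
        have h7 : Fin.tail (τ ∘ i.succ.succAbove) = Fin.tail τ ∘ i.succAbove := by
          funext k
          simp [Fin.tail]
        unfold wt
        rw [h6, h7]
        cases n <;> rfl
      rw [h5, Fin.val_succ, pow_succ]
      simp
    rw [Finset.sum_congr rfl (fun i _ => h4 i), Finset.sum_neg_distrib]
    simp only [Fin.val_zero, pow_zero, one_smul]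
    linarith [h1]

/-- from ordered to oriented cochains -/
theorem OV_of_HZ {K : Set (Finset V)} (hK : IsCx K) {j : ℕ} (h : HZ K A j) :
    OV K A (j + 2) := by
  intro g hg
  set F : (Fin (j + 2) → V) → A := fun τ => ∑ T, wt (j + 2) τ T • g T with hF
  have hcob : ∀ τ : Fin (j + 3) → V, Spans K τ → cob F τ = 0 := by
    intro τ hτ
    have h1 : cob F τ = ∑ T, bd (wt (j + 3) τ) T • g T := by
      unfold cob
      simp only [hF, Finset.smul_sum]
      rw [Finset.sum_comm]
      apply Finset.sum_congr rfl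
      intro T _
      rw [bd_wt, Finset.sum_smul]
      apply Finset.sum_congr rfl
      intro i _
      rw [smul_assoc]
    rw [h1, pair_bd]
    apply Finset.sum_eq_zero
    intro T _
    by_cases hT : wt (j + 3) τ T = 0
    · rw [hT, zero_smul]
    · obtain ⟨h2, h3⟩ := wt_supp _ _ _ hT
      rw [hg T (by rw [h2]; exact hτ) h3, smul_zero]
  obtain ⟨G, hG⟩ := h F hcob
  refine ⟨srt G, fun T hT hTc => ?_⟩
  obtain ⟨τ, hmono, hTi⟩ : ∃ τ : Fin (j + 2) → V, StrictMono τ ∧ T = Finset.univ.image τ :=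
    ⟨T.orderEmbOfFin hTc, (T.orderEmbOfFin hTc).strictMono, eq_image_sorted T hTc⟩
  have h1 := hG τ (by unfold Spans; rw [← hTi]; exact hT)
  have h2 : F τ = g T := by
    simp only [hF]
    rw [Finset.sum_eq_single T]
    · have h3 := wt_strict _ τ hmono
      rw [← hTi] at h3
      rw [h3, one_smul]
    · intro T' _ hT'
      have : wt (j + 2) τ T' = 0 := by
        by_contra hne
        exact hT' ((wt_supp _ _ _ hne).1.trans hTi.symm)
      rw [this, zero_smul]
    · intro hn
      exact absurd (Finset.mem_univ _) hn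
  rw [← h2, h1]
  conv_rhs => rw [hTi]
  rw [dlt_srt G hmono]
  rfl

end Cox957
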