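import Pool.Agent.helper957_gc.W8

set_option autoImplicit false
set_option linter.unusedSectionVars false

/-! Low degree comparison, links, and the combinatorial theorem in oriented form. -/

namespace Cox957

variable {V : Type} [LinearOrder V] [Fintype V] {A : Type} [AddCommGroup A]

/-- from oriented to ordered cochains in degree two -/
theorem low {K : Set (Finset V)} (hK : IsCx K) (h : OV K A 3) : HZ K A 1 := by
  intro f hf
  set b : V → V → V → A := fun u v w => f ![u, v, w] with hb
  have hbc : ∀ u v w x, ({u, v, w, x} : Finset V) ∈ K →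
      b v w x - b u w x + b u v x - b u v w = 0 := by
    intro u v w x hT
    have := hf ![u, v, w, x] ((spans_iff4 _ _ _ _).mpr hT)
    rw [cob3] at this
    exact this
  set a1 : V → V → A := fun u v =>
    if u = v then b u u u else if u < v then b u v u + b u u u else 0 with ha1
  set b' : V → V → V → A := fun u v w => b u v w - (a1 v w - a1 u w + a1 u v) with hb'
  have hbc' : ∀ u v w x, ({u, v, w, x} : Finset V) ∈ K →
      b' v w x - b' u w x + b' u v x - b' u v w = 0 := by
    intro u v w x hT
    have := hbc u v w x hT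
    simp only [hb']
    have e : b v w x - (a1 w x - a1 v x + a1 v w) - (b u w x - (a1 w x - a1 u x + a1 u w)) +
        (b u v x - (a1 v x - a1 u x + a1 u v)) - (b u v w - (a1 v w - a1 u w + a1 u v)) =
        b v w x - b u w x + b u v x - b u v w := by abel
    rw [e, this]
  have haa : ∀ u, a1 u u = b u u u := fun u => if_pos rfl
  -- degenerate triples
  have d1 : ∀ u v, ({u, v} : Finset V) ∈ K → b' u u v = 0 := by
    intro u v hT
    have h1 := hbc u u u v (by simpa using hT)
    simp only [hb']
    rw [haa]
    have h2 : b u u v - b u u u = 0 := by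
      rw [← h1]; abel
    rw [← h2]; abel
  have d2 : ∀ u v, ({u, v} : Finset V) ∈ K → b' u v v = 0 := by
    intro u v hT
    have h1 := hbc u v v v (by simpa using hT)
    simp only [hb']
    rw [haa]
    have h2 : b v v v - b u v v = 0 := by
      rw [← h1]; abel
    have h3 : b u v v = b v v v := (sub_eq_zero.mp h2).symm
    rw [h3]; abel
  have d3 : ∀ u v, ({u, v} : Finset V) ∈ K → b' u v u = 0 := by
    intro u v hT
    have hT' : ({v, u} : Finset V) ∈ K := by rwa [Finset.pair_comm]
    have h1 := hbc u v u v (by
      have : ({u, v, u, v} : Finset V) = {u, v} := by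
        ext x; simp
      rw [this]; exact hT)
    have h2 := hbc u u u v (by simpa using hT)
    have h3 := hbc u v v v (by simpa using hT)
    have h4 : b u u v = b u u u := by
      rw [← sub_eq_zero, ← h2]; abel
    have h5 : b u v v = b v v v := by
      rw [← sub_eq_zero]
      have : b v v v - b u v v = 0 := by rw [← h3]; abel
      rw [← neg_sub, this, neg_zero]
    rw [h4, h5] at h1
    simp only [hb']
    rw [haa]
    rcases lt_trichotomy u v with hlt | heq | hlt
    · have e1 : a1 u v = b u v u + b u u u := by
        simp only [ha1]; rw [if_neg hlt.ne, if_pos hlt]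
      have e2 : a1 v u = 0 := by
        simp only [ha1]; rw [if_neg hlt.ne', if_neg (not_lt.mpr hlt.le)]
      rw [e1, e2]; abel
    · subst heq
      rw [haa]; abel
    · have e1 : a1 v u = b v u v + b v v v := by
        simp only [ha1]; rw [if_neg hlt.ne, if_pos hlt]
      have e2 : a1 u v = 0 := by
        simp only [ha1]; rw [if_neg hlt.ne', if_neg (not_lt.mpr hlt.le)]
      rw [e1, e2]
      have : b u v u - (b v u v + b v v v - b u u u + 0) =
        -(b v u v - b u u u + b v v v - b u v u) := by abel
      rw [this, h1, neg_zero]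
  have s1 : ∀ u v w, ({u, v, w} : Finset V) ∈ K → b' v u w = - b' u v w := by
    intro u v w hT
    have h1 := hbc' u v u w (by
      have : ({u, v, u, w} : Finset V) = {u, v, w} := by
        ext x; simp; tauto
      rw [this]; exact hT)
    rw [d1 u w (hK _ hT _ (by intro x; simp; tauto)),
      d3 u v (hK _ hT _ (by intro x; simp; tauto))] at h1
    rw [eq_neg_iff_add_eq_zero, ← h1]; abel
  have s2 : ∀ u v w, ({u, v, w} : Finset V) ∈ K → b' u w v = - b' u v w := by
    intro u v w hT
    have h1 := hbc' u v w v (by
      have : ({u, v, w, v} : Finset V) = {u, v, w} := by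
        ext x; simp; tauto
      rw [this]; exact hT)
    rw [d2 u v (hK _ hT _ (by intro x; simp; tauto)),
      d3 v w (hK _ hT _ (by intro x; simp; tauto))] at h1
    rw [eq_neg_iff_add_eq_zero]
    have : b' u w v + b' u v w = -(0 - b' u w v + 0 - b' u v w) := by abel
    rw [this, h1, neg_zero]
  -- the oriented cochain
  set G : (Fin 3 → V) → A := fun σ => b' (σ 0) (σ 1) (σ 2) with hG
  obtain ⟨h2, hh2⟩ := h (srt G) (by
    intro T hT hTc
    obtain ⟨τ, hmono, hTi⟩ : ∃ τ : Fin 4 → V, StrictMono τ ∧ T = Finset.univ.image τ :=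
      ⟨T.orderEmbOfFin hTc, (T.orderEmbOfFin hTc).strictMono, eq_image_sorted T hTc⟩
    rw [hTi, dlt_srt G hmono, Fin.sum_univ_four]
    have hT2 : ({τ 0, τ 1, τ 2, τ 3} : Finset V) ∈ K := by
      have : ({τ 0, τ 1, τ 2, τ 3} : Finset V) = T := by
        rw [hTi]
        ext x
        simp only [Finset.mem_image, Finset.mem_univ, true_and, Fin.exists_fin_succ,
          Finset.mem_insert, Finset.mem_singleton, IsEmpty.exists_iff, or_false]
        constructor
        · rintro (h | h | h | h) <;> subst h <;> simp
        · rintro (h | h | h | h) <;> subst h <;> simp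
      rw [this]; exact hT
    have := hbc' _ _ _ _ hT2
    have g0 : G (τ ∘ (0 : Fin 4).succAbove) = b' (τ 1) (τ 2) (τ 3) := rfl
    have g1 : G (τ ∘ (1 : Fin 4).succAbove) = b' (τ 0) (τ 2) (τ 3) := rfl
    have g2 : G (τ ∘ (2 : Fin 4).succAbove) = b' (τ 0) (τ 1) (τ 3) := rfl
    have g3 : G (τ ∘ (3 : Fin 4).succAbove) = b' (τ 0) (τ 1) (τ 2) := rfl
    rw [g0, g1, g2, g3, ← this]
    norm_num
    abel)
  set a2 : V → V → A := fun u v =>
    if u < v then h2 {u, v} else if v < u then - h2 {v, u} else 0 with ha2
  have haa2 : ∀ u, a2 u u = 0 := by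
    intro u
    simp only [ha2]
    rw [if_neg (lt_irrefl u), if_neg (lt_irrefl u)]
  have hanti : ∀ u v, a2 v u = - a2 u v := by
    intro u v
    simp only [ha2]
    rcases lt_trichotomy u v with hlt | heq | hlt
    · rw [if_pos hlt, if_neg (not_lt.mpr hlt.le), if_pos hlt]
    · subst heq
      rw [if_neg (lt_irrefl u), if_neg (lt_irrefl u), neg_zero]
    · rw [if_pos hlt, if_neg (not_lt.mpr hlt.le), if_pos hlt, neg_neg]
  have hsorted : ∀ u v w, ({u, v, w} : Finset V) ∈ K → u < v → v < w →
      b' u v w = a2 v w - a2 u w + a2 u v := by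
    intro u v w hT huv hvw
    have hmono : StrictMono (![u, v, w] : Fin 3 → V) := by
      rw [Fin.strictMono_iff_lt_succ]
      intro i
      fin_cases i
      · exact huv
      · exact hvw
    have hTi : Finset.univ.image (![u, v, w] : Fin 3 → V) = ({u, v, w} : Finset V) := by
      ext x
      simp only [Finset.mem_image, Finset.mem_univ, true_and, Fin.exists_fin_succ,
        Matrix.cons_val_zero, Matrix.cons_val_succ, Finset.mem_insert, Finset.mem_singleton,
        IsEmpty.exists_iff, or_false]
      tauto
    have hc : ({u, v, w} : Finset V).card = 3 := by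
      rw [← hTi, Finset.card_image_of_injective _ hmono.injective]; rfl
    have h1 := hh2 _ hT hc
    rw [← hTi, srt_image G hmono, dlt_tuple h2 hmono, Fin.sum_univ_three] at h1
    have g0 : Finset.univ.image ((![u, v, w] : Fin 3 → V) ∘ (0 : Fin 3).succAbove) =
        ({v, w} : Finset V) := by
      ext x
      simp only [Finset.mem_image, Finset.mem_univ, true_and, Fin.exists_fin_succ,
        Finset.mem_insert, Finset.mem_singleton, IsEmpty.exists_iff, or_false]
      constructor
      · rintro (h | h) <;> subst h <;> simp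
      · rintro (h | h) <;> subst h <;> simp
    have g1 : Finset.univ.image ((![u, v, w] : Fin 3 → V) ∘ (1 : Fin 3).succAbove) =
        ({u, w} : Finset V) := by
      ext x
      simp only [Finset.mem_image, Finset.mem_univ, true_and, Fin.exists_fin_succ,
        Finset.mem_insert, Finset.mem_singleton, IsEmpty.exists_iff, or_false]
      constructor
      · rintro (h | h)
        · left; exact h.symm
        · right; exact h.symm
      · rintro (h | h)
        · left; exact h.symm
        · right; exact h.symm
    have g2 : Finset.univ.image ((![u, v, w] : Fin 3 → V) ∘ (2 : Fin 3).succAbove) =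
        ({u, v} : Finset V) := by
      ext x
      simp only [Finset.mem_image, Finset.mem_univ, true_and, Fin.exists_fin_succ,
        Finset.mem_insert, Finset.mem_singleton, IsEmpty.exists_iff, or_false]
      constructor
      · rintro (h | h)
        · left; exact h.symm
        · right; exact h.symm
      · rintro (h | h)
        · left; exact h.symm
        · right; exact h.symm
    rw [g0, g1, g2] at h1
    have e1 : a2 v w = h2 {v, w} := if_pos hvw
    have e2 : a2 u w = h2 {u, w} := if_pos (huv.trans hvw)
    have e3 : a2 u v = h2 {u, v} := if_pos huv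
    rw [e1, e2, e3]
    have h3 : b' u v w = G ![u, v, w] := rfl
    rw [h3, h1]
    norm_num
    abel
  -- permutations
  have p1 : ∀ u v w, ({u, v, w} : Finset V) ∈ K → b' u v w = a2 v w - a2 u w + a2 u v →
      b' v u w = a2 u w - a2 v w + a2 v u := by
    intro u v w hT h1
    rw [s1 u v w hT, h1, hanti u v]; abel
  have p2 : ∀ u v w, ({u, v, w} : Finset V) ∈ K → b' u v w = a2 v w - a2 u w + a2 u v →
      b' u w v = a2 w v - a2 u v + a2 u w := by
    intro u v w hT h1
    rw [s2 u v w hT, h1, hanti v w]; abel
  have hperm1 : ∀ u v w : V, ({v, u, w} : Finset V) = {u, v, w} := by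
    intro u v w; ext x; simp; tauto
  have hperm2 : ∀ u v w : V, ({u, w, v} : Finset V) = {u, v, w} := by
    intro u v w; ext x; simp; tauto
  have hall : ∀ u v w, ({u, v, w} : Finset V) ∈ K →
      b' u v w = a2 v w - a2 u w + a2 u v := by
    -- first: sorted up to a permutation of the last two
    have q1 : ∀ u v w, ({u, v, w} : Finset V) ∈ K → u < v → u < w →
        b' u v w = a2 v w - a2 u w + a2 u v := by
      intro u v w hT h1 h2
      rcases lt_trichotomy v w with hlt | heq | hlt
      · exact hsorted u v w hT h1 hlt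
      · subst heq
        rw [d2 u v (hK _ hT _ (by intro x; simp)), haa2]; abel
      · have hT' : ({u, w, v} : Finset V) ∈ K := by rw [hperm2]; exact hT
        exact p2 u w v hT' (hsorted u w v hT' h2 hlt)
    intro u v w hT
    rcases lt_trichotomy u v with h1 | h1 | h1
    · rcases lt_trichotomy u w with h2 | h2 | h2
      · exact q1 u v w hT h1 h2
      · subst h2
        rw [d3 u v (hK _ hT _ (by intro x; simp; tauto)), haa2, hanti u v]; abel
      · -- w < u < v
        have hT' : ({w, u, v} : Finset V) ∈ K := by
          rw [hperm1 u w v, hperm2 u v w]; exact hT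
        have e1 := hsorted w u v hT' h2 h1
        have hT'' : ({u, w, v} : Finset V) ∈ K := by rw [hperm2]; exact hT
        have e2 := p1 w u v hT' e1
        exact p2 u w v hT'' e2
    · subst h1
      rw [d1 u w (hK _ hT _ (by intro x; simp)), haa2]; abel
    · have hT' : ({v, u, w} : Finset V) ∈ K := by rw [hperm1]; exact hT
      rcases lt_trichotomy v w with h2 | h2 | h2
      · exact p1 v u w hT' (q1 v u w hT' h1 h2)
      · subst h2
        rw [d2 u v (hK _ hT _ (by intro x; simp)), haa2]; abel
      · -- w < v < u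
        have hT3 : ({w, v, u} : Finset V) ∈ K := by
          rw [hperm1 v w u, hperm2 v u w]; exact hT'
        have e1 := hsorted w v u hT3 h2 h1
        have hT4 : ({v, w, u} : Finset V) ∈ K := by rw [hperm1]; exact hT3
        have e2 := p1 w v u hT3 e1
        have e3 := p2 v w u hT4 e2
        exact p1 v u w hT' e3
  refine ⟨fun σ => a1 (σ 0) (σ 1) + a2 (σ 0) (σ 1), fun τ hτ => ?_⟩
  rw [eta3 τ] at hτ ⊢
  rw [cob2]
  have h1 := hall _ _ _ ((spans_iff3 _ _ _).mp hτ)
  simp only [hb'] at h1
  have h3 : f ![τ 0, τ 1, τ 2] = b (τ 0) (τ 1) (τ 2) := rfl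
  rw [h3, ← sub_eq_zero]
  rw [← sub_eq_zero] at h1
  rw [← h1]
  simp only [Matrix.cons_val_zero, Matrix.cons_val_one]
  abel

theorem OV_empty (n : ℕ) : OV (∅ : Set (Finset V)) A n :=
  fun _ _ => ⟨fun _ => 0, fun T hT => absurd hT (Set.notMem_empty T)⟩

theorem lk1_mem {K : Set (Finset V)} {v : V} {T : Finset V} :
    T ∈ lk K {v} ↔ v ∉ T ∧ insert v T ∈ K := by
  show Disjoint T {v} ∧ T ∪ {v} ∈ K ↔ _
  rw [Finset.disjoint_singleton_right, Finset.union_comm, ← Finset.insert_eq]

/-- vanishing on links from vanishing on the deletion and on the complex -/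
theorem OV_link {K : Set (Finset V)} (hK : IsCx K) (v : V) (n : ℕ) (h1 : OV (del K v) A n)
    (h2 : OV K A (n + 1)) : OV (lk K {v}) A n := by
  intro g hg
  set gh : Finset V → A := fun T => if v ∈ T then sg v (T.erase v) • g (T.erase v) else 0 with hgh
  -- coboundary of `gh`
  have c1 : ∀ T ∈ K, T.card = n + 1 + 1 → dlt gh T = 0 := by
    intro T hT hTc
    by_cases hv : v ∈ T
    · have hS : T.erase v ∈ lk K {v} := by
        rw [lk1_mem]
        exact ⟨by simp, by rwa [Finset.insert_erase hv]⟩
      have h3 := hg _ hS (by rw [Finset.card_erase_of_mem hv, hTc]; rfl)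
      have h4 : dlt gh T = - (sg v (T.erase v) • dlt g (T.erase v)) := by
        unfold dlt
        rw [← Finset.add_sum_erase _ _ hv, Finset.smul_sum, ← Finset.sum_neg_distrib]
        have h5 : gh (T.erase v) = 0 := by
          simp only [hgh]
          rw [if_neg (by simp)]
        rw [h5, smul_zero, zero_add]
        apply Finset.sum_congr rfl
        intro t ht
        rw [Finset.mem_erase] at ht
        have h6 : v ∈ T.erase t := Finset.mem_erase.mpr ⟨ht.1.symm, hv⟩
        simp only [hgh]
        rw [if_pos h6, Finset.erase_right_comm, smul_smul, smul_smul, ← neg_smul]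
        congr 1
        have key := sg_anti (t := t) (u := v) (T := (T.erase v).erase t) (by simp) (by simp) ht.1
        have e1 : insert t ((T.erase v).erase t) = T.erase v :=
          Finset.insert_erase (Finset.mem_erase.mpr ht)
        have e2 : insert v ((T.erase v).erase t) = T.erase t := by
          rw [Finset.erase_right_comm, Finset.insert_erase h6]
        rw [e1, e2] at key
        have e3 : sg t T = sg t (T.erase t) := (sg_erase_self t T).symm
        have e4 : sg t (T.erase v) = sg t ((T.erase v).erase t) := (sg_erase_self t _).symm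
        rw [e3, e4]
        have k1 := sg_mul_self v ((T.erase v).erase t)
        have k2 := sg_mul_self t (T.erase t)
        have k3 := sg_mul_self v (T.erase v)
        have k4 := sg_mul_self t ((T.erase v).erase t)
        linear_combination key
      rw [h4, h3, smul_zero, neg_zero]
    · unfold dlt
      apply Finset.sum_eq_zero
      intro t _
      have : gh (T.erase t) = 0 := by
        simp only [hgh]
        rw [if_neg]
        intro h; exact hv (Finset.mem_of_mem_erase h)
      rw [this, smul_zero]
  obtain ⟨h, hh⟩ := h2 gh c1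
  obtain ⟨q, hq⟩ := h1 h (by
    intro T hT hTc
    rw [← hh T hT.1 hTc]
    simp only [hgh]
    rw [if_neg hT.2])
  set q' : Finset V → A := fun T => if v ∈ T then 0 else q T with hq'
  set h' : Finset V → A := fun T => h T - dlt q' T with hh'
  have e1 : ∀ T, dlt h' T = dlt h T := by
    intro T
    rw [hh', dlt_sub, dlt_dlt, sub_zero]
  have e2 : ∀ T ∈ del K v, T.card = n → h' T = 0 := by
    intro T hT hTc
    simp only [hh']
    rw [hq T hT hTc, sub_eq_zero]
    apply dlt_congr
    intro t _
    simp only [hq']
    rw [if_neg]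
    intro h3
    exact hT.2 (Finset.mem_of_mem_erase h3)
  refine ⟨fun R => - (sg v R • h' (insert v R)), fun T hT hTc => ?_⟩
  rw [lk1_mem] at hT
  have h3 := hh (insert v T) hT.2 (by rw [Finset.card_insert_of_notMem hT.1, hTc])
  rw [← e1] at h3
  have h4 : gh (insert v T) = sg v T • g T := by
    simp only [hgh]
    rw [if_pos (Finset.mem_insert_self _ _), Finset.erase_insert hT.1]
  rw [h4] at h3
  have h5 : g T = sg v T • (sg v T • g T) := by
    rw [smul_smul, sg_mul_self, one_smul]
  rw [h5, h3]
  unfold dlt
  rw [Finset.sum_insert hT.1, Finset.erase_insert hT.1]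
  have h6 : h' T = 0 := e2 T ⟨hK _ hT.2 _ (Finset.subset_insert _ _), hT.1⟩ hTc
  rw [h6, smul_zero, zero_add, Finset.smul_sum]
  apply Finset.sum_congr rfl
  intro t ht
  have htv : t ≠ v := fun h => hT.1 (h ▸ ht)
  rw [Finset.erase_insert_of_ne htv.symm, smul_smul, smul_neg, smul_smul, ← neg_smul]
  congr 1
  have key := sg_anti (t := t) (u := v) (T := T.erase t) (by simp)
    (fun h => hT.1 (Finset.mem_of_mem_erase h)) htv
  rw [Finset.insert_erase ht] at key
  have e3 : sg t (insert v T) = sg t (insert v (T.erase t)) := by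
    rw [← sg_erase_self t (insert v T), Finset.erase_insert_of_ne htv.symm]
  have e4 : sg t T = sg t (T.erase t) := (sg_erase_self t T).symm
  rw [e3, e4]
  have k1 := sg_mul_self t (T.erase t)
  have k2 := sg_mul_self t (insert v (T.erase t))
  -- key : s * p = - (r * q); goal p * q = - (s * r)
  linear_combination (sg t (T.erase t) * sg t (insert v (T.erase t))) * key -
    (sg v T * sg t (insert v (T.erase t))) * k1 +
    (sg t (T.erase t) * sg v (T.erase t)) * (- k2)

/-- full subcomplexes -/
def rs (K : Set (Finset V)) (U : Finset V) : Set (Finset V) := {T | T ∈ K ∧ T ⊆ U}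

theorem rs_cx {K : Set (Finset V)} (hK : IsCx K) (U : Finset V) : IsCx (rs K U) := by
  rintro T ⟨h1, h2⟩ R hR
  exact ⟨hK T h1 R hR, hR.trans h2⟩

theorem rs_univ (K : Set (Finset V)) : rs K Finset.univ = K := by
  ext T
  exact ⟨fun h => h.1, fun h => ⟨h, Finset.subset_univ _⟩⟩

/-- all full subcomplexes have vanishing rational cohomology in degrees at least two -/
def Pc (K : Set (Finset V)) : Prop := IsCx K ∧ ∀ (U : Finset V) (n : ℕ), 3 ≤ n → OV (rs K U) ℚ n

theorem Pc_rs {K : Set (Finset V)} (h : Pc K) (U : Finset V) : Pc (rs K U) := by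
  refine ⟨rs_cx h.1 U, fun U' n hn => ?_⟩
  have : rs (rs K U) U' = rs K (U ∩ U') := by
    ext T
    unfold rs
    simp only [Set.mem_ofPred_eq, Finset.subset_inter_iff]
    tauto
  rw [this]
  exact h.2 _ n hn

theorem Pc_lk1 {K : Set (Finset V)} (h : Pc K) (v : V) : Pc (lk K {v}) := by
  refine ⟨lk_cx h.1 {v}, ?_⟩
  have hmain : ∀ (U : Finset V) (n : ℕ), 3 ≤ n → v ∉ U → OV (rs (lk K {v}) U) ℚ n := by
    intro U n hn hv
    have e1 : rs (lk K {v}) U = lk (rs K (insert v U)) {v} := by
      ext T
      rw [lk1_mem]
      show T ∈ lk K {v} ∧ T ⊆ U ↔ v ∉ T ∧ insert v T ∈ K ∧ insert v T ⊆ insert v U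
      rw [lk1_mem]
      constructor
      · rintro ⟨⟨h1, h2⟩, h3⟩
        exact ⟨h1, h2, Finset.insert_subset_insert _ h3⟩
      · rintro ⟨h1, h2, h3⟩
        refine ⟨⟨h1, h2⟩, fun x hx => ?_⟩
        have := h3 (Finset.mem_insert_of_mem hx)
        rw [Finset.mem_insert] at this
        rcases this with rfl | h4
        · exact absurd hx h1
        · exact h4
    have e2 : del (rs K (insert v U)) v = rs K U := by
      ext T
      show (T ∈ K ∧ T ⊆ insert v U) ∧ v ∉ T ↔ T ∈ K ∧ T ⊆ U
      constructor
      · rintro ⟨⟨h1, h2⟩, h3⟩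
        refine ⟨h1, fun x hx => ?_⟩
        have := h2 hx
        rw [Finset.mem_insert] at this
        rcases this with rfl | h4
        · exact absurd hx h3
        · exact h4
      · rintro ⟨h1, h2⟩
        exact ⟨⟨h1, h2.trans (Finset.subset_insert _ _)⟩, fun h3 => hv (h2 h3)⟩
    rw [e1]
    apply OV_link (rs_cx h.1 _) v n
    · rw [e2]; exact h.2 U n hn
    · exact h.2 _ (n + 1) (by omega)
  intro U n hn
  by_cases hv : v ∈ U
  · have : rs (lk K {v}) U = rs (lk K {v}) (U.erase v) := by
      ext T
      show T ∈ lk K {v} ∧ T ⊆ U ↔ T ∈ lk K {v} ∧ T ⊆ U.erase v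
      constructor
      · rintro ⟨h1, h2⟩
        refine ⟨h1, fun x hx => Finset.mem_erase.mpr ⟨?_, h2 hx⟩⟩
        rintro rfl
        exact (lk1_mem.mp h1).1 hx
      · rintro ⟨h1, h2⟩
        exact ⟨h1, h2.trans (Finset.erase_subset _ _)⟩
    rw [this]
    exact hmain _ n hn (by simp)
  · exact hmain U n hn hv

theorem Pc_empty : Pc (∅ : Set (Finset V)) := by
  refine ⟨fun T hT => absurd hT (Set.notMem_empty T), fun U n _ => ?_⟩
  have : rs (∅ : Set (Finset V)) U = ∅ := by
    ext T
    exact ⟨fun h => h.1, fun h => absurd h (Set.notMem_empty T)⟩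
  rw [this]
  exact OV_empty n

theorem Pc_lk (S : Finset V) : ∀ {K : Set (Finset V)}, Pc K → Pc (lk K S) := by
  induction S using Finset.induction_on with
  | empty => intro K h; rw [lk_empty]; exact h
  | insert a S ha ih =>
    intro K h
    by_cases hS : insert a S ∈ K
    · have h1 : {a} ∈ lk K S := by
        refine ⟨?_, ?_⟩
        · rw [Finset.disjoint_singleton_left]; exact ha
        · rw [← Finset.insert_eq]; exact hS
      have h2 := Pc_lk1 (ih h) a
      rw [lk_lk K S {a} h1, ← Finset.insert_eq] at h2
      exact h2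
    · have : lk K (insert a S) = ∅ := by
        rw [Set.eq_empty_iff_forall_notMem]
        rintro T ⟨_, hT⟩
        exact hS (h.1 _ hT _ Finset.subset_union_right)
      rw [this]
      exact Pc_empty

theorem Pc_good {K : Set (Finset V)} (h : Pc K) : Good K := by
  intro S _
  have h1 := Pc_lk S h
  have h2 := h1.2 Finset.univ 3 le_rfl
  rw [rs_univ] at h2
  exact low h1.1 h2

/-- the combinatorial theorem in oriented form -/
theorem MAINo {K : Set (Finset V)} (h : Pc K) (U : Finset V) (n : ℕ) (hn : 4 ≤ n) :
    OV (rs K U) ℤ n := by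
  have h1 := Pc_rs h U
  obtain ⟨j, rfl⟩ : ∃ j, n = j + 2 + 2 := ⟨n - 4, by omega⟩
  have h2 := (MAIN h1.1 (Pc_good h1) ∅ j).2.2
  rw [lk_empty] at h2
  exact OV_of_HZ h1.1 h2

/-- free coefficients -/
theorem OV_free {K : Set (Finset V)} {n : ℕ} (h : OV K ℤ n) (ι : Type) : OV K (ι →₀ ℤ) n := by
  classical
  intro g hg
  have hc : ∀ i : ι, ∃ q : Finset V → ℤ, ∀ T ∈ K, T.card = n → g T i = dlt q T := by
    intro i
    apply h (fun T => g T i)
    intro T hT hTc
    have e := dlt_map (Finsupp.applyAddHom i) g T
    rw [hg T hT hTc, map_zero] at e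
    exact e
  choose q hq using hc
  set s : Finset ι := Finset.univ.biUnion fun T : Finset V => (g T).support with hs
  refine ⟨fun S => ∑ i ∈ s, Finsupp.single i (q i S), fun T hT hTc => ?_⟩
  have e1 : dlt (fun S => ∑ i ∈ s, Finsupp.single i (q i S)) T =
      ∑ i ∈ s, Finsupp.single i (dlt (q i) T) := by
    unfold dlt
    simp only [Finset.smul_sum]
    rw [Finset.sum_comm]
    apply Finset.sum_congr rfl
    intro i _
    have e0 := map_sum (Finsupp.singleAddHom (M := ℤ) i) (fun t => sg t T • q i (T.erase t)) T
    simp only [Finsupp.singleAddHom_apply] at e0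
    rw [e0]
    apply Finset.sum_congr rfl
    intro t _
    rw [Finsupp.smul_single]
  rw [e1]
  have e2 : g T = ∑ i ∈ s, Finsupp.single i (g T i) := by
    have e3 : (g T).sum Finsupp.single = ∑ i ∈ s, Finsupp.single i (g T i) := by
      apply Finsupp.sum_of_support_subset (s := s)
      · intro i hi
        exact Finset.mem_biUnion.mpr ⟨T, Finset.mem_univ _, hi⟩
      · intro i _; simp
    rw [← e3, Finsupp.sum_single]
  rw [e2]
  apply Finset.sum_congr rfl
  intro i _
  rw [hq i T hT hTc]

end Cox957
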